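import Pool.Agent.Q260.DT.Stm
import Pool.Agent.Q210.DS.LB

/-! # Project DT of helper260, job LF: three circles for the two-shift average -/

set_option autoImplicit false

namespace Pool.Agent.Q176.DT

open Complex Filter Topology Metric Set
open Pool.Agent.Q260.DS (Sys Nm EE NZ It Li)
open Pool.Agent.Q260.DT
open Pool.Agent.Q210.DS (ee_mono ee_ge pt_eq)

/-- the quotient is small to the right -/
theorem quot {K A y0 : ℝ} {f : ℂ → ℂ} {l g : ℝ → ℝ} (hK : 0 ≤ K) (hS : Sys K A y0 f l g) {a : ℝ}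
    (ha : 0 < a) {w : ℂ} (h1 : 7 / 4 ≤ w.re) (h2 : w.re ≤ 7) (hl : 0 ≤ l w.im) :
    0 < ‖f (w + a)‖ ∧ ‖f (w - a)‖ ≤
      Real.exp (-(min (2 * a) (1 / 4) * l w.im) + K * (2 + 2 * (7 + a) ^ 2)) * ‖f (w + a)‖ := by
  obtain ⟨y, hy⟩ : ∃ y : ℝ, y = w.im := ⟨_, rfl⟩
  obtain ⟨s, hs⟩ : ∃ s : ℝ, s = w.re := ⟨_, rfl⟩
  rw [← hy] at hl ⊢
  rw [← hs] at h1 h2
  have e1 : w + (a : ℂ) = ((s + a : ℝ) : ℂ) + I * (y : ℂ) := by
    rw [hy, hs]
    nth_rewrite 1 [pt_eq w]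
    push_cast
    ring
  have e2 : w - (a : ℂ) = ((s - a : ℝ) : ℂ) + I * (y : ℂ) := by
    rw [hy, hs]
    nth_rewrite 1 [pt_eq w]
    push_cast
    ring
  have p1 := hS.lo y ((s + a : ℝ) : ℂ) (by rw [ofReal_re]; linarith)
  have p2 := hS.up y ((s - a : ℝ) : ℂ)
  rw [← e1, ofReal_re, Complex.norm_real, Real.norm_eq_abs, sq_abs] at p1
  rw [← e2, ofReal_re, Complex.norm_real, Real.norm_eq_abs, sq_abs] at p2
  have hg := hS.pos y
  refine ⟨lt_of_lt_of_le (mul_pos hg (Real.exp_pos _)) p1, p2.trans ?_⟩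
  refine le_trans ?_ (mul_le_mul_of_nonneg_left p1 (Real.exp_pos _).le)
  have e3 : Real.exp (-(min (2 * a) (1 / 4) * l y) + K * (2 + 2 * (7 + a) ^ 2)) *
      (g y * Real.exp (l y * (s + a) - K * (1 + (s + a) ^ 2))) =
      g y * Real.exp ((-(min (2 * a) (1 / 4) * l y) + K * (2 + 2 * (7 + a) ^ 2)) +
        (l y * (s + a) - K * (1 + (s + a) ^ 2))) := by
    rw [Real.exp_add (-(min (2 * a) (1 / 4) * l y) + K * (2 + 2 * (7 + a) ^ 2))]
    ring
  rw [e3]
  refine mul_le_mul_of_nonneg_left (Real.exp_le_exp.2 ?_) hg.le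
  have q1 : max |s - a| (3 / 2) + min (2 * a) (1 / 4) ≤ s + a := by
    have m1 := min_le_left (2 * a) (1 / 4 : ℝ)
    have m2 := min_le_right (2 * a) (1 / 4 : ℝ)
    rcases le_total |s - a| (3 / 2) with h | h
    · rw [max_eq_right h]
      linarith
    · rw [max_eq_left h]
      rcases abs_cases (s - a) with h' | h'
      · rw [h'.1]
        linarith
      · rw [h'.1]
        linarith
  have q2 : l y * (max |s - a| (3 / 2) + min (2 * a) (1 / 4)) ≤ l y * (s + a) :=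
    mul_le_mul_of_nonneg_left q1 hl
  have q3 : (s + a) ^ 2 ≤ (7 + a) ^ 2 := pow_le_pow_left₀ (by linarith) (by linarith) 2
  have q4 : (s - a) ^ 2 ≤ (7 + a) ^ 2 := by
    rw [← sq_abs (s - a)]
    refine pow_le_pow_left₀ (abs_nonneg _) ?_ 2
    rw [abs_le]
    constructor <;> linarith
  have q5 : K * (s + a) ^ 2 ≤ K * (7 + a) ^ 2 := mul_le_mul_of_nonneg_left q3 hK
  have q6 : K * (s - a) ^ 2 ≤ K * (7 + a) ^ 2 := mul_le_mul_of_nonneg_left q4 hK
  nlinarith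

/-- the quotient is at most one half at large heights -/
theorem half {K A y0 : ℝ} {f : ℂ → ℂ} {l g : ℝ → ℝ} (hK : 0 ≤ K) (hS : Sys K A y0 f l g)
    (hlim : Tendsto l atTop atTop) {a : ℝ} (ha : 0 < a) : ∃ Y : ℝ, ∀ w : ℂ, Y ≤ w.im →
      7 / 4 ≤ w.re → w.re ≤ 7 → 0 < ‖f (w + a)‖ ∧ ‖f (w - a)‖ ≤ 1 / 2 * ‖f (w + a)‖ := by
  have hc : 0 < min (2 * a) (1 / 4 : ℝ) := lt_min (by linarith) (by norm_num)
  obtain ⟨Y, hY⟩ := eventually_atTop.1
    (hlim.eventually_ge_atTop ((K * (2 + 2 * (7 + a) ^ 2) + 1) / min (2 * a) (1 / 4)))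
  refine ⟨Y, fun w hw h1 h2 => ?_⟩
  have h3 := hY w.im hw
  have h4 : 0 ≤ l w.im := le_trans (by positivity) h3
  obtain ⟨h5, h6⟩ := quot hK hS ha h1 h2 h4
  refine ⟨h5, h6.trans (mul_le_mul_of_nonneg_right ?_ h5.le)⟩
  rw [div_le_iff₀ hc] at h3
  have h7 : Real.exp (-(min (2 * a) (1 / 4) * l w.im) + K * (2 + 2 * (7 + a) ^ 2)) ≤
      Real.exp (-1) := Real.exp_le_exp.2 (by linarith)
  refine h7.trans ?_
  rw [Real.exp_neg, inv_le_comm₀ (Real.exp_pos _) (by norm_num)]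
  have := Real.add_one_le_exp (1 : ℝ)
  norm_num at this ⊢
  linarith

/-- values and the logarithmic derivative to the right -/
theorem right {f : ℂ → ℂ} (hf : Differentiable ℂ f) {a Y : ℝ} {u : ℂ} (hu : ‖u‖ = 1)
    (hY : ∀ w : ℂ, Y ≤ w.im → 7 / 4 ≤ w.re → w.re ≤ 7 →
      0 < ‖f (w + a)‖ ∧ ‖f (w - a)‖ ≤ 1 / 2 * ‖f (w + a)‖) :
    (∀ w : ℂ, Y ≤ w.im → 7 / 4 ≤ w.re → w.re ≤ 7 → Fa f a u w ≠ 0 ∧
      1 / 2 * ‖f (w + a)‖ ≤ ‖Fa f a u w‖ ∧ ‖Fa f a u w‖ ≤ 2 * ‖f (w + a)‖) ∧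
    ∀ w : ℂ, Y + 1 ≤ w.im → 2 ≤ w.re → w.re ≤ 6 →
      ‖logDeriv (Fa f a u) w - logDeriv f (w + a)‖ ≤ 4 := by
  have hval : ∀ w : ℂ, Y ≤ w.im → 7 / 4 ≤ w.re → w.re ≤ 7 → Fa f a u w ≠ 0 ∧
      1 / 2 * ‖f (w + a)‖ ≤ ‖Fa f a u w‖ ∧ ‖Fa f a u w‖ ≤ 2 * ‖f (w + a)‖ := by
    intro w h1 h2 h3
    obtain ⟨h4, h5⟩ := hY w h1 h2 h3
    have h6 : ‖u * f (w - a)‖ ≤ 1 / 2 * ‖f (w + a)‖ := by rw [norm_mul, hu, one_mul]; exact h5
    have h7 : 1 / 2 * ‖f (w + a)‖ ≤ ‖Fa f a u w‖ := by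
      unfold Fa
      have := norm_sub_le_norm_add (f (w + a)) (u * f (w - a))
      linarith
    have h8 : ‖Fa f a u w‖ ≤ 2 * ‖f (w + a)‖ := by
      unfold Fa
      have := norm_add_le (f (w + a)) (u * f (w - a))
      linarith
    refine ⟨?_, h7, h8⟩
    intro h0
    rw [h0, norm_zero] at h7
    linarith
  refine ⟨hval, fun w h1 h2 h3 => ?_⟩
  obtain ⟨Q, hQ⟩ : ∃ Q : ℂ → ℂ, Q = fun z => f (z - a) / f (z + a) := ⟨_, rfl⟩
  have hd1 : Differentiable ℂ fun z : ℂ => f (z + a) := by fun_prop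
  have hd2 : Differentiable ℂ fun z : ℂ => f (z - a) := by fun_prop
  have hball : ∀ z ∈ closedBall w (1 / 4), Y ≤ z.im ∧ 7 / 4 ≤ z.re ∧ z.re ≤ 7 := by
    intro z hz
    rw [mem_closedBall, dist_eq_norm] at hz
    have h4 := abs_le.1 ((abs_re_le_norm (z - w)).trans hz)
    have h5 := abs_le.1 ((abs_im_le_norm (z - w)).trans hz)
    rw [sub_re] at h4
    rw [sub_im] at h5
    exact ⟨by linarith [h5.1], by linarith [h4.1], by linarith [h4.2]⟩
  have hne : ∀ z ∈ closedBall w (1 / 4), f (z + a) ≠ 0 := by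
    intro z hz
    obtain ⟨a1, a2, a3⟩ := hball z hz
    exact norm_pos_iff.1 (hY z a1 a2 a3).1
  have hQd : DifferentiableOn ℂ Q (closedBall w (1 / 4)) := by
    rw [hQ]
    exact hd2.differentiableOn.div hd1.differentiableOn hne
  have hQb : ∀ z ∈ closedBall w (1 / 4), ‖Q z‖ ≤ 1 / 2 := by
    intro z hz
    obtain ⟨a1, a2, a3⟩ := hball z hz
    obtain ⟨a4, a5⟩ := hY z a1 a2 a3
    rw [hQ]
    simp only [norm_div]
    rw [div_le_iff₀ a4]
    exact a5
  have hw : w ∈ closedBall w (1 / 4) := mem_closedBall_self (by norm_num)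
  have hQ' : ‖deriv Q w‖ ≤ 2 := by
    have h4 := Complex.norm_deriv_le_of_forall_mem_sphere_norm_le (c := w) (R := 1 / 4) (C := 1 / 2)
      (f := Q) (by norm_num) (hQd.diffContOnCl_ball (Subset.refl _))
      (fun z hz => hQb z (sphere_subset_closedBall hz))
    norm_num at h4
    exact h4
  have hQw : DifferentiableAt ℂ Q w :=
    (hQd w hw).differentiableAt (closedBall_mem_nhds w (by norm_num))
  have hev : Fa f a u =ᶠ[𝓝 w] fun z => f (z + a) * (1 + u * Q z) := by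
    filter_upwards [closedBall_mem_nhds w (show (0 : ℝ) < 1 / 4 by norm_num)] with z hz
    unfold Fa
    rw [hQ]
    have := hne z hz
    field_simp
  have hone : ‖u * Q w‖ ≤ 1 / 2 := by
    rw [norm_mul, hu, one_mul]
    exact hQb w hw
  have h12 : 1 / 2 ≤ ‖1 + u * Q w‖ := by
    have := norm_sub_le_norm_add (1 : ℂ) (u * Q w)
    rw [norm_one] at this
    linarith
  have hne1 : 1 + u * Q w ≠ 0 := by
    intro h0
    rw [h0, norm_zero] at h12
    linarith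
  have hd3 : DifferentiableAt ℂ (fun z => 1 + u * Q z) w := (hQw.const_mul u).const_add 1
  have e1 : logDeriv (Fa f a u) w = logDeriv (fun z => f (z + a)) w + logDeriv (fun z => 1 + u * Q z) w := by
    have e2 : logDeriv (Fa f a u) w = logDeriv (fun z => f (z + a) * (1 + u * Q z)) w := by
      rw [logDeriv_apply, logDeriv_apply, hev.deriv_eq, hev.eq_of_nhds]
    rw [e2]
    exact logDeriv_mul w (hne w hw) hne1 (hd1 w) hd3
  have e2 : logDeriv (fun z => f (z + a)) w = logDeriv f (w + a) := by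
    rw [logDeriv_apply, logDeriv_apply, deriv_comp_add_const]
  have e3 : deriv (fun z => 1 + u * Q z) w = u * deriv Q w := by
    rw [deriv_const_add, deriv_const_mul u hQw]
  rw [e1, e2, add_sub_cancel_left, logDeriv_apply, e3, norm_div, norm_mul, hu, one_mul]
  rw [div_le_iff₀ (by linarith)]
  linarith

theorem ee_add {C1 C2 L δ : ℝ} (h1 : 1 ≤ C1) (h2 : 0 ≤ C2) (hL : 1 ≤ L) (hδ : 0 < δ)
    (hδ1 : δ ≤ 1 / 2) : EE C1 L δ + C2 ≤ EE (C1 + C2) L δ := by
  unfold EE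
  have h3 : δ / (C1 + C2) ≤ δ / C1 := div_le_div_of_nonneg_left hδ.le (by linarith) (by linarith)
  have h4 : L ^ (1 - δ / C1) ≤ L ^ (1 - δ / (C1 + C2)) :=
    Real.rpow_le_rpow_of_exponent_le hL (by linarith)
  have hdc : δ / (C1 + C2) ≤ 1 := by
    rw [div_le_one (by linarith)]
    linarith
  have h5 : 1 ≤ L ^ (1 - δ / (C1 + C2)) := Real.one_le_rpow hL (by linarith)
  have h6 : C2 ≤ C2 / δ ^ 2 := by
    rw [le_div_iff₀ (by positivity)]
    have : δ ^ 2 ≤ 1 := by nlinarith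
    nlinarith
  have h7 : C2 ≤ C2 / δ ^ 2 * L ^ (1 - δ / (C1 + C2)) := by nlinarith
  have h8 : C1 / δ ^ 2 * L ^ (1 - δ / C1) ≤ C1 / δ ^ 2 * L ^ (1 - δ / (C1 + C2)) :=
    mul_le_mul_of_nonneg_left h4 (by positivity)
  have e : (C1 + C2) / δ ^ 2 * L ^ (1 - δ / (C1 + C2)) =
    C1 / δ ^ 2 * L ^ (1 - δ / (C1 + C2)) + C2 / δ ^ 2 * L ^ (1 - δ / (C1 + C2)) := by ring
  linarith

theorem ee_mul {Ct A' L δ : ℝ} (hCt : 1 ≤ Ct) (hA1 : 1 ≤ A') (hL1 : 1 ≤ L) (hδ : 0 < δ)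
    (hδ1 : δ ≤ 1 / 2) : Ct / δ ^ 2 * (A' * L) ^ (1 - δ / Ct) ≤ EE (Ct * A') L δ := by
  have hA0 : 0 < A' := by linarith
  have hCt0 : 0 < Ct := by linarith
  unfold EE
  rw [Real.mul_rpow hA0.le (by linarith)]
  have hdc0 : 0 ≤ δ / Ct := by positivity
  have e1 : A' ^ (1 - δ / Ct) ≤ A' := by
    calc A' ^ (1 - δ / Ct) ≤ A' ^ (1 : ℝ) :=
          Real.rpow_le_rpow_of_exponent_le hA1 (by linarith)
      _ = A' := Real.rpow_one _
  have e2 : L ^ (1 - δ / Ct) ≤ L ^ (1 - δ / (Ct * A')) := by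
    apply Real.rpow_le_rpow_of_exponent_le hL1
    have : δ / (Ct * A') ≤ δ / Ct :=
      div_le_div_of_nonneg_left hδ.le hCt0 (by nlinarith)
    linarith
  calc Ct / δ ^ 2 * (A' ^ (1 - δ / Ct) * L ^ (1 - δ / Ct))
      ≤ Ct / δ ^ 2 * (A' * L ^ (1 - δ / (Ct * A'))) := by
        apply mul_le_mul_of_nonneg_left _ (by positivity)
        exact mul_le_mul e1 e2 (Real.rpow_nonneg (by linarith) _) hA0.le
    _ = Ct * A' / δ ^ 2 * L ^ (1 - δ / (Ct * A')) := by ring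

/-- JOB LF. -/
theorem t_LF (h1 : Pool.Agent.Q260.DS.S_RT) (h2 : Pool.Agent.Q260.DJ.S_TC) (_h3 : S_SZ) : S_LF := by
  intro ϑ f l g hR a u ha hu
  obtain ⟨K, A, y0, hK, hA, hS⟩ := hR.sys
  obtain ⟨Y1, hY1⟩ := half (by linarith) hS hR.lim ha
  obtain ⟨hval, hlder⟩ := right hS.diff hu hY1
  obtain ⟨Cr, hCr, hr⟩ := h1 K A (7 / 4) (7 + a) 0 hK hA (by norm_num)
  have hr' : ∀ x y : ℝ, Cr ≤ l y → 7 / 4 ≤ x → x ≤ 7 + a → f (x + I * y) ≠ 0 ∧
      ‖logDeriv f (x + I * y) - (l y : ℂ)‖ ≤ Cr ∧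
      Nm l g 0 y x / Cr ≤ ‖f (x + I * y)‖ ∧ ‖f (x + I * y)‖ ≤ Cr * Nm l g 0 y x :=
    hr y0 f l g hS [] ⟨rfl, by simp⟩
  have hl3 : 0 ≤ Real.log 3 := Real.log_nonneg (by norm_num)
  have hK3 : 0 ≤ K * Real.log 3 := by positivity
  obtain ⟨C0, hC0⟩ : ∃ C0 : ℝ, C0 = 4 + Cr + K * Real.log 3 := ⟨_, rfl⟩
  obtain ⟨Ct, hCt, htc⟩ := h2 C0 (by rw [hC0]; linarith)
  obtain ⟨Kc, hKc⟩ : ∃ Kc : ℝ, Kc = K * (1 + (7 + a) ^ 2) := ⟨_, rfl⟩
  have hKc0 : 0 ≤ Kc := by rw [hKc]; positivity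
  obtain ⟨A', hA'⟩ : ∃ A' : ℝ, A' = 7 + a + Kc + 4 * Cr := ⟨_, rfl⟩
  have hA1 : 1 ≤ A' := by rw [hA']; linarith
  obtain ⟨Y2, hY2⟩ := eventually_atTop.1 (hR.lim.eventually_ge_atTop (Cr + 1))
  obtain ⟨C, hC⟩ : ∃ C : ℝ, C = Ct * A' + 2 * Cr + (|Y1| + |Y2| + 5) := ⟨_, rfl⟩
  have hCtA : 1 ≤ Ct * A' := by nlinarith
  have hY1a := abs_nonneg Y1
  have hY2a := abs_nonneg Y2
  have hC1 : 1 ≤ C := by rw [hC]; linarith
  refine ⟨C, hC1, ?_⟩
  intro T θ δ hT hθ hθ1 hδ hδ1 hnz x hx1 hx2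
  obtain ⟨G, hG⟩ : ∃ G : ℂ → ℂ, G = Fa f a u := ⟨_, rfl⟩
  rw [← hG] at hval hlder hnz ⊢
  obtain ⟨L, hL⟩ : ∃ L : ℝ, L = l T := ⟨_, rfl⟩
  have hTY1 : Y1 + 5 ≤ T := by
    have := le_abs_self Y1
    rw [hC] at hT
    linarith
  have hTY2 : Y2 + 5 ≤ T := by
    have := le_abs_self Y2
    rw [hC] at hT
    linarith
  have hlh : ∀ v : ℝ, |v - T| ≤ 4 → Cr + 1 ≤ l v := by
    intro v hv
    have := abs_le.1 hv
    exact hY2 v (by linarith [this.1])
  have hLC : Cr + 1 ≤ L := by rw [hL]; exact hlh T (by simp)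
  have hL1 : 1 ≤ L := by linarith
  have hL0 : 0 < L := by linarith
  obtain ⟨c, hc⟩ : ∃ c : ℂ, c = (3 : ℂ) + I * (T : ℂ) := ⟨_, rfl⟩
  obtain ⟨ρ, hρ⟩ : ∃ ρ : ℝ, ρ = 3 - θ := ⟨_, rfl⟩
  have hcre : c.re = 3 := by rw [hc]; simp
  have hcim : c.im = T := by rw [hc]; simp
  obtain ⟨q, hq⟩ : ∃ q : ℂ → ℂ, q = fun w => G w * Complex.exp (-(L : ℂ) * w) := ⟨_, rfl⟩
  have hqn : ∀ w, ‖q w‖ = ‖G w‖ * Real.exp (-L * w.re) := by
    intro w
    rw [hq]
    simp only [norm_mul, Complex.norm_exp]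
    congr 2
    simp
  have hρ2 : 2 ≤ ρ := by rw [hρ]; linarith
  have hρ3 : ρ ≤ 3 := by rw [hρ]; linarith
  have hnear : ∀ (w : ℂ) (r : ℝ), ‖w - c‖ ≤ r → |w.re - 3| ≤ r ∧ |w.im - T| ≤ r := by
    intro w r h
    constructor
    · have := (abs_re_le_norm (w - c)).trans h
      rwa [sub_re, hcre] at this
    · have := (abs_im_le_norm (w - c)).trans h
      rwa [sub_im, hcim] at this
  have hball : ∀ w ∈ ball c ρ, θ < w.re ∧ w.re < 6 ∧ |w.im - T| < 3 := by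
    intro w hw
    rw [mem_ball, dist_eq_norm] at hw
    obtain ⟨q1, q2⟩ := hnear w _ le_rfl
    have q3 := abs_lt.1 (q1.trans_lt hw)
    have q4 := q2.trans_lt hw
    refine ⟨by linarith [q3.1], by linarith [q3.2], by linarith⟩
  have hne : ∀ w ∈ ball c ρ, G w ≠ 0 := by
    intro w hw
    obtain ⟨p1, p2, p3⟩ := hball w hw
    have p4 := abs_lt.1 p3
    rcases le_or_gt w.re 2 with h | h
    · exact hnz w p1 h (by linarith [p4.1]) (by linarith [p4.2])
    · exact (hval w (by linarith [p4.1]) (by linarith) (by linarith)).1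
  have hqne : ∀ w ∈ ball c ρ, q w ≠ 0 := by
    intro w hw
    rw [hq]
    exact mul_ne_zero (hne w hw) (Complex.exp_ne_zero _)
  have hexpd : Differentiable ℂ fun w : ℂ => Complex.exp (-(L : ℂ) * w) := by fun_prop
  have hent : Differentiable ℂ G := by
    rw [hG]
    unfold Fa
    have := hS.diff
    fun_prop
  have hqd : Differentiable ℂ q := by
    rw [hq]
    exact hent.mul hexpd
  have hld : ∀ w, G w ≠ 0 → logDeriv q w = logDeriv G w - (L : ℂ) := by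
    intro w hw
    rw [hq]
    rw [logDeriv_mul (f := G) (g := fun w : ℂ => Complex.exp (-(L : ℂ) * w)) w hw
      (Complex.exp_ne_zero _) (hent w) (hexpd w)]
    have h3 : logDeriv (fun w : ℂ => Complex.exp (-(L : ℂ) * w)) w = -(L : ℂ) := by
      rw [logDeriv_apply]
      have h4 : HasDerivAt (fun w : ℂ => Complex.exp (-(L : ℂ) * w))
          (Complex.exp (-(L : ℂ) * w) * (-(L : ℂ))) w := by
        have h5 := ((hasDerivAt_id w).const_mul (-(L : ℂ))).cexp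
        simpa using h5
      rw [h4.deriv, mul_div_assoc, mul_comm, div_mul_cancel₀ _ (Complex.exp_ne_zero _)]
    rw [h3, sub_eq_add_neg]
  have hgy := hS.pos T
  have hga : 0 < g T * Real.exp (L * a) := mul_pos hgy (Real.exp_pos _)
  -- the centre
  have hcen : g T * Real.exp (L * a) / (2 * Cr) ≤ ‖q c‖ ∧
      ‖q c‖ ≤ 2 * Cr * (g T * Real.exp (L * a)) := by
    obtain ⟨-, -, h5, h6⟩ := hr' (3 + a) T (by rw [← hL]; linarith) (by linarith) (by linarith)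
    have e0 : ((3 + a : ℝ) : ℂ) + I * (T : ℂ) = c + a := by rw [hc]; push_cast; ring
    rw [e0] at h5 h6
    obtain ⟨-, h7, h8⟩ := hval c (by rw [hcim]; linarith) (by rw [hcre]; norm_num)
      (by rw [hcre]; norm_num)
    rw [hqn, hcre]
    unfold Nm at h5 h6
    rw [← hL, pow_zero, mul_one] at h5 h6
    have hexp : Real.exp (L * (3 + a)) * Real.exp (-L * 3) = Real.exp (L * a) := by
      rw [← Real.exp_add]
      congr 1
      ring
    constructor
    · calc g T * Real.exp (L * a) / (2 * Cr)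
          = 1 / 2 * (g T * Real.exp (L * (3 + a)) / Cr) * Real.exp (-L * 3) := by
            rw [← hexp]
            field_simp
        _ ≤ 1 / 2 * ‖f (c + a)‖ * Real.exp (-L * 3) := by gcongr
        _ ≤ ‖G c‖ * Real.exp (-L * 3) := mul_le_mul_of_nonneg_right h7 (Real.exp_pos _).le
    · calc ‖G c‖ * Real.exp (-L * 3) ≤ 2 * ‖f (c + a)‖ * Real.exp (-L * 3) :=
            mul_le_mul_of_nonneg_right h8 (Real.exp_pos _).le
        _ ≤ 2 * (Cr * (g T * Real.exp (L * (3 + a)))) * Real.exp (-L * 3) := by gcongr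
        _ = 2 * Cr * (g T * Real.exp (L * a)) := by
            rw [← hexp]
            ring
  have hqc0 : 0 < ‖q c‖ := lt_of_lt_of_le (by positivity) hcen.1
  -- the upper bound
  have hup : ∀ w ∈ ball c ρ, ‖q w‖ ≤ Real.exp (A' * L) * ‖q c‖ := by
    intro w hw
    obtain ⟨p1, p2, p3⟩ := hball w hw
    have hw2 : ‖w - c‖ < 3 := by
      rw [mem_ball, dist_eq_norm] at hw
      linarith
    have hfb : ∀ s : ℝ, |s| ≤ a → ‖f (w + s)‖ ≤ g T * Real.exp ((7 + a) * L + Kc) := by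
      intro s hs
      have h3 : ‖w + s - I * (T : ℂ)‖ ≤ 7 + a := by
        have e : w + s - I * (T : ℂ) = (w - c) + 3 + s := by rw [hc]; ring
        rw [e]
        have e1 := norm_add_le ((w - c) + 3) (s : ℂ)
        have e2 := norm_add_le (w - c) (3 : ℂ)
        have e3 : ‖(3 : ℂ)‖ = 3 := by norm_num
        rw [Complex.norm_real, Real.norm_eq_abs] at e1
        rw [e3] at e2
        linarith
      have h4 := hS.up T (w + s - I * (T : ℂ))
      rw [sub_add_cancel, ← hL] at h4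
      refine h4.trans (mul_le_mul_of_nonneg_left (Real.exp_le_exp.2 ?_) hgy.le)
      have h5 : max |(w + s - I * (T : ℂ)).re| (3 / 2) ≤ 7 + a :=
        max_le ((abs_re_le_norm _).trans h3) (by linarith)
      have h6 : L * max |(w + s - I * (T : ℂ)).re| (3 / 2) ≤ L * (7 + a) :=
        mul_le_mul_of_nonneg_left h5 hL0.le
      have h7 : K * (1 + ‖w + s - I * (T : ℂ)‖ ^ 2) ≤ Kc := by
        rw [hKc]
        refine mul_le_mul_of_nonneg_left ?_ (by linarith)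
        have := pow_le_pow_left₀ (norm_nonneg _) h3 2
        linarith
      linarith
    have h3 : ‖G w‖ ≤ 2 * (g T * Real.exp ((7 + a) * L + Kc)) := by
      rw [hG]
      unfold Fa
      have i1 := hfb a (by rw [abs_of_pos ha])
      have i2 := hfb (-a) (by rw [abs_neg, abs_of_pos ha])
      have i3 : w + ((-a : ℝ) : ℂ) = w - a := by push_cast; ring
      rw [i3] at i2
      have i4 := norm_add_le (f (w + a)) (u * f (w - a))
      rw [norm_mul, hu, one_mul] at i4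
      linarith
    rw [hqn]
    have h5 : Real.exp (-L * w.re) ≤ 1 := by
      apply Real.exp_le_one_iff.2
      nlinarith
    have h6 : 4 * Cr ≤ Real.exp (4 * Cr * L) := by
      have h8 := Real.add_one_le_exp (4 * Cr * L)
      have h9 : 4 * Cr * 1 ≤ 4 * Cr * L := mul_le_mul_of_nonneg_left hL1 (by linarith)
      linarith
    have h7 : 2 * g T ≤ 4 * Cr * ‖q c‖ := by
      have h8 := hcen.1
      rw [div_le_iff₀ (by linarith)] at h8
      have h9 : g T * 1 ≤ g T * Real.exp (L * a) :=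
        mul_le_mul_of_nonneg_left (Real.one_le_exp (by positivity)) hgy.le
      linarith
    have h8 : Real.exp ((7 + a) * L + Kc) ≤ Real.exp ((7 + a + Kc) * L) := by
      rw [Real.exp_le_exp]
      nlinarith
    calc ‖G w‖ * Real.exp (-L * w.re) ≤ (2 * (g T * Real.exp ((7 + a) * L + Kc))) * 1 :=
          mul_le_mul h3 h5 (Real.exp_pos _).le (by positivity)
      _ = 2 * g T * Real.exp ((7 + a) * L + Kc) := by ring
      _ ≤ 4 * Cr * ‖q c‖ * Real.exp ((7 + a + Kc) * L) := by gcongr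
      _ ≤ Real.exp (4 * Cr * L) * ‖q c‖ * Real.exp ((7 + a + Kc) * L) := by gcongr
      _ = Real.exp (A' * L) * ‖q c‖ := by
          rw [hA', add_mul (7 + a + Kc), Real.exp_add]
          ring
  have hsmall : ∀ w ∈ closedBall c 1, ‖logDeriv q w‖ ≤ C0 := by
    intro w hw
    have hwb : w ∈ ball c ρ := closedBall_subset_ball (by linarith) hw
    rw [hld w (hne w hwb)]
    rw [mem_closedBall, dist_eq_norm] at hw
    obtain ⟨q1, q2⟩ := hnear w 1 hw
    have q3 := abs_le.1 q1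
    have q4 := abs_le.1 q2
    have h3 := (hr' (w.re + a) w.im (by have := hlh w.im (by linarith); linarith)
      (by linarith [q3.1]) (by linarith [q3.2])).2.1
    have e0 : ((w.re + a : ℝ) : ℂ) + I * (w.im : ℂ) = w + a := by
      nth_rewrite 3 [pt_eq w]
      push_cast
      ring
    rw [e0] at h3
    have h3' := hlder w (by linarith [q4.1]) (by linarith [q3.1]) (by linarith [q3.2])
    have h4 := hS.shift T (w.im - T)
    rw [add_sub_cancel, ← hL] at h4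
    have h5 : Real.log (2 + |w.im - T|) ≤ Real.log 3 :=
      Real.log_le_log (by positivity) (by linarith)
    have h6 : K * Real.log (2 + |w.im - T|) ≤ K * Real.log 3 :=
      mul_le_mul_of_nonneg_left h5 (by linarith)
    have e : logDeriv G w - (L : ℂ) = (logDeriv G w - logDeriv f (w + a)) +
        (logDeriv f (w + a) - (l w.im : ℂ)) + ((l w.im - L : ℝ) : ℂ) := by
      push_cast
      ring
    rw [e]
    refine (norm_add_le _ _).trans ?_
    have h7 := norm_add_le (logDeriv G w - logDeriv f (w + a)) (logDeriv f (w + a) - (l w.im : ℂ))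
    rw [Complex.norm_real, Real.norm_eq_abs, hC0]
    linarith
  have hM1 : 1 ≤ A' * L := by nlinarith
  obtain ⟨z, hz⟩ : ∃ z : ℂ, z = (x : ℂ) + I * (T : ℂ) := ⟨_, rfl⟩
  rw [← hz]
  have hzre : z.re = x := by rw [hz]; simp
  have hzc : ‖z - c‖ ≤ ρ - δ := by
    have e : z - c = ((x - 3 : ℝ) : ℂ) := by
      rw [hz, hc]
      push_cast
      ring
    rw [e, Complex.norm_real, Real.norm_eq_abs, abs_le, hρ]
    constructor <;> linarith
  have hzb : z ∈ ball c ρ := by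
    rw [mem_ball, dist_eq_norm]
    linarith
  obtain ⟨r1, -⟩ := htc q c ρ δ (A' * L) hρ2 hρ3 hδ hδ1 hM1 hqd.differentiableOn hqne hup hsmall
    z hzc
  have hE := ee_mul hCt hA1 hL1 hδ hδ1
  have hE2 := ee_add (C1 := Ct * A') (C2 := 2 * Cr) hCtA (by linarith) hL1 hδ hδ1
  have hE3 : EE (Ct * A' + 2 * Cr) L δ ≤ EE C L δ :=
    ee_mono (by linarith) (by rw [hC]; linarith) hL1 hδ
  refine ⟨hne z hzb, ?_⟩
  have e1 : ‖G z‖ / Nm l g 0 T (x + a) = (‖q z‖ / ‖q c‖) * (‖q c‖ / (g T * Real.exp (L * a))) := by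
    rw [div_mul_div_cancel₀ hqc0.ne', hqn, hzre]
    unfold Nm
    rw [← hL, pow_zero, mul_one, mul_add, Real.exp_add]
    have : Real.exp (L * x) * Real.exp (-L * x) = 1 := by
      rw [← Real.exp_add]
      simp
    rw [div_eq_div_iff (by positivity) (by positivity)]
    linear_combination (-(‖G z‖ * g T * Real.exp (L * a))) * this
  have hqz0 : 0 < ‖q z‖ := norm_pos_iff.2 (hqne z hzb)
  rw [e1, Real.log_mul (by positivity) (by positivity), ← hL]
  have e2 : |Real.log (‖q c‖ / (g T * Real.exp (L * a)))| ≤ 2 * Cr := by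
    have f1 : ‖q c‖ / (g T * Real.exp (L * a)) ≤ 2 * Cr := by
      rw [div_le_iff₀ hga]
      exact hcen.2
    have f2 : 1 / (2 * Cr) ≤ ‖q c‖ / (g T * Real.exp (L * a)) := by
      rw [le_div_iff₀ hga, one_div, inv_mul_eq_div]
      exact hcen.1
    have f3 := Real.log_le_log (by positivity) f1
    have f4 := Real.log_le_log (by positivity) f2
    rw [one_div, Real.log_inv] at f4
    have f5 := Real.log_le_sub_one_of_pos (show 0 < 2 * Cr by linarith)
    rw [abs_le]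
    constructor <;> linarith
  refine (abs_add_le _ _).trans ?_
  linarith

end Pool.Agent.Q176.DT
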