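import Pool.Agent.Q176.DT.Sm

set_option autoImplicit false

/-! Project DT (helper186), job TLH: passage to the limit in the energy inequality. -/

namespace Pool.Agent.Q176.DT

open Set Filter Topology MeasureTheory
open Pool.Agent.Q186.DT

variable {K : ℕ}

/-- The truncated solutions `u j` (generations up to `n j`) and their limit. -/
structure Cx (L g k T EF E1 D1 : ℝ) (F V : Nd K → ℝ → ℝ) (h : ℕ → ℝ) (u : ℕ → Nd K → ℝ → ℝ)
    (n : ℕ → ℕ) : Prop where
  hL : 1 < L
  hg : 1 ≤ g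
  hk : 0 < k
  hT : 0 < T
  hF : Frc L g T EF F h
  cu : ∀ (j : ℕ) (w : Nd K), w.length ≤ n j → ContinuousOn (u j w) (Icc 0 T)
  cV : ∀ w : Nd K, ContinuousOn (V w) (Icc 0 T)
  en : ∀ j : ℕ, ∀ t ∈ Icc 0 T, PE L g (u j) (n j) t ≤ E1
  dis : ∀ j : ℕ, (∫ r in (0:ℝ)..T, PD g (u j) (n j) r) ≤ D1
  ineq : ∀ (j : ℕ) (s t : ℝ), 0 ≤ s → s ≤ t → t ≤ T →
    PE L g (u j) (n j) t + 2 * k * (∫ r in s..t, PD g (u j) (n j) r) ≤
      PE L g (u j) (n j) s + 2 * ∫ r in s..t, PF L g F (u j) (n j) r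
  lim : ∀ w : Nd K, ∀ t ∈ Icc 0 T, Tendsto (fun j => u j w t) atTop (𝓝 (V w t))
  nt : Tendsto n atTop atTop

namespace Cx

variable {L g k T EF E1 D1 : ℝ} {F V : Nd K → ℝ → ℝ} {h : ℕ → ℝ} {u : ℕ → Nd K → ℝ → ℝ}
  {n : ℕ → ℕ} (c : Cx L g k T EF E1 D1 F V h u n)

include c

theorem L0 : 0 < L := by linarith [c.hL]

theorem g0 : 0 < g := by linarith [c.hg]

theorem ev (m : ℕ) : ∀ᶠ j in atTop, m ≤ n j := c.nt.eventually_ge_atTop m

theorem EF0 : 0 ≤ EF :=
  (PE_nonneg c.L0 c.g0).trans (c.hF.en 0 0 ⟨le_rfl, c.hT.le⟩)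

theorem sub {s t : ℝ} (hs : 0 ≤ s) (ht : t ≤ T) : Icc s t ⊆ Icc 0 T :=
  Icc_subset_Icc hs ht

theorem cuw {j m : ℕ} (hm : m ≤ n j) (w : Nd K) (hw : w.length ≤ m) :
    ContinuousOn (u j w) (Icc 0 T) := c.cu j w (by omega)

theorem PEj {j m : ℕ} (hm : m ≤ n j) {t : ℝ} (ht : t ∈ Icc 0 T) : PE L g (u j) m t ≤ E1 :=
  (PE_mono c.L0 c.g0 hm).trans (c.en j t ht)

theorem PEV (m : ℕ) {t : ℝ} (ht : t ∈ Icc 0 T) : PE L g V m t ≤ E1 := by
  refine le_of_tendsto (PE_lim fun w => c.lim w t ht) ?_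
  filter_upwards [c.ev m] with j hj
  exact c.PEj hj ht

/-- convergence of time integrals -/
theorem int_lim {Φ : (Nd K → ℝ → ℝ) → ℝ → ℝ} {m : ℕ} {B s t : ℝ} (hs : 0 ≤ s) (hst : s ≤ t)
    (ht : t ≤ T)
    (hc : ∀ W : Nd K → ℝ → ℝ, (∀ w : Nd K, w.length ≤ m → ContinuousOn (W w) (Icc 0 T)) →
      ContinuousOn (Φ W) (Icc 0 T))
    (hb : ∀ W : Nd K → ℝ → ℝ, ∀ r ∈ Icc 0 T, PE L g W m r ≤ E1 → |Φ W r| ≤ B)
    (hl : ∀ r ∈ Icc 0 T, Tendsto (fun j => Φ (u j) r) atTop (𝓝 (Φ V r))) :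
    Tendsto (fun j => ∫ r in s..t, Φ (u j) r) atTop (𝓝 (∫ r in s..t, Φ V r)) := by
  have hsub : Set.uIoc s t ⊆ Icc 0 T := by
    rw [uIoc_of_le hst]
    exact Ioc_subset_Icc_self.trans (c.sub hs ht)
  refine intervalIntegral.tendsto_integral_filter_of_dominated_convergence (fun _ => B) ?_ ?_ ?_ ?_
  · filter_upwards [c.ev m] with j hj
    exact ((hc _ fun w hw => c.cuw hj w hw).mono hsub).aestronglyMeasurable measurableSet_uIoc
  · filter_upwards [c.ev m] with j hj
    refine Eventually.of_forall fun r hr => ?_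
    rw [Real.norm_eq_abs]
    exact hb _ r (hsub hr) (c.PEj hj (hsub hr))
  · exact intervalIntegrable_const
  · exact Eventually.of_forall fun r hr => hl r (hsub hr)

theorem PD_int {s t : ℝ} (hs : 0 ≤ s) (hst : s ≤ t) (ht : t ≤ T) (m : ℕ) :
    Tendsto (fun j => ∫ r in s..t, PD g (u j) m r) atTop (𝓝 (∫ r in s..t, PD g V m r)) := by
  refine c.int_lim (Φ := fun W => PD g W m) (m := m) (B := L ^ m * E1) hs hst ht
    (fun W hW => PD_cont hW) (fun W r _ hr => ?_) (fun r hr => PD_lim fun w => c.lim w r hr)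
  have h1 : 0 ≤ PD g W m r := PD_nonneg c.g0
  rw [abs_of_nonneg h1]
  refine (PD_le c.hL.le c.g0).trans (mul_le_mul_of_nonneg_left hr ?_)
  have := c.L0
  positivity

theorem PF_int {s t : ℝ} (hs : 0 ≤ s) (hst : s ≤ t) (ht : t ≤ T) (m : ℕ) :
    Tendsto (fun j => ∫ r in s..t, PF L g F (u j) m r) atTop (𝓝 (∫ r in s..t, PF L g F V m r)) := by
  refine c.int_lim (Φ := fun W => PF L g F W m) (m := m) (B := (E1 + EF) / 2) hs hst ht
    (fun W hW => PF_cont (fun w _ => c.hF.cont w) hW) (fun W r hr1 hr => ?_)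
    (fun r hr => PF_lim fun w => c.lim w r hr)
  refine (PF_le c.L0 c.g0).trans ?_
  have := c.hF.en m r hr1
  linarith

theorem PD_ii {j m : ℕ} (hm : m ≤ n j) {s t : ℝ} (hs : 0 ≤ s) (hst : s ≤ t) (ht : t ≤ T) :
    IntervalIntegrable (PD g (u j) m) volume s t := by
  refine ContinuousOn.intervalIntegrable ?_
  rw [uIcc_of_le hst]
  exact (PD_cont fun w hw => c.cuw hm w hw).mono (c.sub hs ht)

theorem PF_ii {j m : ℕ} (hm : m ≤ n j) {s t : ℝ} (hs : 0 ≤ s) (hst : s ≤ t) (ht : t ≤ T) :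
    IntervalIntegrable (PF L g F (u j) m) volume s t := by
  refine ContinuousOn.intervalIntegrable ?_
  rw [uIcc_of_le hst]
  exact (PF_cont (fun w _ => c.hF.cont w) fun w hw => c.cuw hm w hw).mono (c.sub hs ht)

theorem dis' {j m : ℕ} (hm : m ≤ n j) {s t : ℝ} (hs : 0 ≤ s) (hst : s ≤ t) (ht : t ≤ T) :
    (∫ r in s..t, PD g (u j) m r) ≤ D1 := by
  have h1 : (∫ r in s..t, PD g (u j) m r) ≤ ∫ r in (0:ℝ)..T, PD g (u j) m r := by
    refine intervalIntegral.integral_mono_interval hs hst ht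
      (Eventually.of_forall fun r => PD_nonneg c.g0) (c.PD_ii hm le_rfl c.hT.le le_rfl)
  refine h1.trans (le_trans ?_ (c.dis j))
  refine intervalIntegral.integral_mono_on c.hT.le (c.PD_ii hm le_rfl c.hT.le le_rfl)
    (c.PD_ii le_rfl le_rfl c.hT.le le_rfl) fun r _ => PD_mono c.g0 hm

theorem disV (m : ℕ) : (∫ r in (0:ℝ)..T, PD g V m r) ≤ D1 := by
  refine le_of_tendsto (c.PD_int le_rfl c.hT.le le_rfl m) ?_
  filter_upwards [c.ev m] with j hj
  exact c.dis' hj le_rfl c.hT.le le_rfl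

theorem D10 : 0 ≤ D1 := by
  refine le_trans ?_ (c.dis 0)
  exact intervalIntegral.integral_nonneg c.hT.le fun r _ => PD_nonneg c.g0

/-- the limit of the energies -/
theorem mono_PE (s : ℝ) : Monotone fun m => PE L g V m s :=
  fun _ _ hab => PE_mono c.L0 c.g0 hab

theorem bdd_PE {s : ℝ} (hs : s ∈ Icc 0 T) : BddAbove (range fun m => PE L g V m s) :=
  ⟨E1, by rintro _ ⟨m, rfl⟩; exact c.PEV m hs⟩

theorem tends_PE {s : ℝ} (hs : s ∈ Icc 0 T) :
    Tendsto (fun m => PE L g V m s) atTop (𝓝 (⨆ m, PE L g V m s)) :=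
  tendsto_atTop_ciSup (c.mono_PE s) (c.bdd_PE hs)

theorem PE_le_sup {s : ℝ} (hs : s ∈ Icc 0 T) (m : ℕ) : PE L g V m s ≤ ⨆ m, PE L g V m s :=
  le_ciSup (c.bdd_PE hs) m

/-- the energies of the approximations at time `s` do not exceed the energy of the limit -/
def FR (_ : Cx L g k T EF E1 D1 F V h u n) (s : ℝ) : Prop :=
  ∀ δ : ℝ, 0 < δ → ∃ᶠ j in atTop, PE L g (u j) (n j) s ≤ (⨆ m, PE L g V m s) + δ

/-- the energy inequality for the limit, with the energy identity for `V` -/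
theorem ei (hTEN : ∀ (N : ℕ) (s t : ℝ), 0 ≤ s → s ≤ t → t ≤ T →
      PE L g V N t + 2 * k * (∫ r in s..t, PD g V N r) + 2 * (∫ r in s..t, fl g V N r)
        = PE L g V N s + 2 * (∫ r in s..t, PF L g F V N r))
    {s t : ℝ} (hs : 0 ≤ s) (hst : s ≤ t) (ht : t ≤ T) (hfr : c.FR s) : EI g V s t := by
  intro ε hε
  have hL0 := c.L0
  have hEF := c.EF0
  have hsI : s ∈ Icc 0 T := ⟨hs, hst.trans ht⟩
  have htI : t ∈ Icc 0 T := ⟨hs.trans hst, ht⟩
  obtain ⟨ρ, hρ⟩ : ∃ ρ : ℝ, ρ = ε / (2 * (T * EF + 1)) := ⟨_, rfl⟩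
  have hTE : 0 ≤ T * EF := mul_nonneg c.hT.le hEF
  have hρ0 : 0 < ρ := by rw [hρ]; positivity
  have hρ1 : ρ * (T * EF) ≤ ε / 2 := by
    rw [hρ, div_mul_eq_mul_div, div_le_iff₀ (by positivity)]
    nlinarith
  have key : ∀ m : ℕ, PE L g V m t + 2 * k * (∫ r in s..t, PD g V m r) -
      2 * (∫ r in s..t, PF L g F V m r) ≤
      (⨆ m, PE L g V m s) + (ρ⁻¹ * (L ^ (m + 1))⁻¹ * D1 + ε / 2) := by
    intro m
    refine le_of_forall_pos_le_add fun δ hδ => ?_
    have h1 : Tendsto (fun j => PE L g (u j) m t + 2 * k * (∫ r in s..t, PD g (u j) m r) -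
        2 * (∫ r in s..t, PF L g F (u j) m r)) atTop
        (𝓝 (PE L g V m t + 2 * k * (∫ r in s..t, PD g V m r) -
        2 * (∫ r in s..t, PF L g F V m r))) :=
      ((PE_lim fun w => c.lim w t htI).add ((c.PD_int hs hst ht m).const_mul _)).sub
        ((c.PF_int hs hst ht m).const_mul _)
    refine le_of_tendsto_of_frequently h1 (((hfr δ hδ).and_eventually (c.ev m)).mono ?_)
    rintro j ⟨h2, h3⟩
    have h4 := c.ineq j s t hs hst ht
    have h5 : PE L g (u j) m t ≤ PE L g (u j) (n j) t := PE_mono hL0 c.g0 h3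
    have h6 : (∫ r in s..t, PD g (u j) m r) ≤ ∫ r in s..t, PD g (u j) (n j) r :=
      intervalIntegral.integral_mono_on hst (c.PD_ii h3 hs hst ht) (c.PD_ii le_rfl hs hst ht)
        fun r _ => PD_mono c.g0 h3
    have h7 : 2 * ((∫ r in s..t, PF L g F (u j) (n j) r) - ∫ r in s..t, PF L g F (u j) m r) ≤
        ρ⁻¹ * (L ^ (m + 1))⁻¹ * D1 + ε / 2 := by
      have e1 : (∫ r in s..t, 2 * (PF L g F (u j) (n j) r - PF L g F (u j) m r)) =
          2 * ((∫ r in s..t, PF L g F (u j) (n j) r) - ∫ r in s..t, PF L g F (u j) m r) := by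
        rw [intervalIntegral.integral_const_mul,
          intervalIntegral.integral_sub (c.PF_ii le_rfl hs hst ht) (c.PF_ii h3 hs hst ht)]
      have e2 : (∫ r in s..t, (ρ⁻¹ * (L ^ (m + 1))⁻¹ * PD g (u j) (n j) r + ρ * EF)) =
          ρ⁻¹ * (L ^ (m + 1))⁻¹ * (∫ r in s..t, PD g (u j) (n j) r) + (t - s) * (ρ * EF) := by
        rw [intervalIntegral.integral_add ((c.PD_ii le_rfl hs hst ht).const_mul _)
          intervalIntegrable_const, intervalIntegral.integral_const_mul,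
          intervalIntegral.integral_const, smul_eq_mul]
      have h8 : (∫ r in s..t, 2 * (PF L g F (u j) (n j) r - PF L g F (u j) m r)) ≤
          ∫ r in s..t, (ρ⁻¹ * (L ^ (m + 1))⁻¹ * PD g (u j) (n j) r + ρ * EF) := by
        refine intervalIntegral.integral_mono_on hst
          (((c.PF_ii le_rfl hs hst ht).sub (c.PF_ii h3 hs hst ht)).const_mul _)
          (((c.PD_ii le_rfl hs hst ht).const_mul _).add intervalIntegrable_const) fun r hr => ?_
        refine (PF_tail c.hL.le c.g0 h3 hρ0).trans ?_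
        have h9 := mul_le_mul_of_nonneg_left (c.hF.en (n j) r (c.sub hs ht hr)) hρ0.le
        linarith
      rw [e1, e2] at h8
      have h10 := mul_le_mul_of_nonneg_left (c.dis' (j := j) le_rfl hs hst ht)
        (show 0 ≤ ρ⁻¹ * (L ^ (m + 1))⁻¹ by positivity)
      have h11 : (t - s) * (ρ * EF) ≤ ρ * (T * EF) := by
        have h12 : (t - s) * (ρ * EF) ≤ T * (ρ * EF) :=
          mul_le_mul_of_nonneg_right (by linarith) (by positivity)
        linarith
      linarith
    have h13 := mul_le_mul_of_nonneg_left h6 c.hk.le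
    linarith
  have hlim : Tendsto (fun m : ℕ => ((⨆ m, PE L g V m s) - PE L g V m s) +
      ρ⁻¹ * (L ^ (m + 1))⁻¹ * D1) atTop (𝓝 (((⨆ m, PE L g V m s) - ⨆ m, PE L g V m s) +
      ρ⁻¹ * 0 * D1)) := by
    refine ((tendsto_const_nhds).sub (c.tends_PE hsI)).add
      ((Tendsto.const_mul _ ?_).mul_const _)
    exact tendsto_inv_atTop_zero.comp
      ((tendsto_pow_atTop_atTop_of_one_lt c.hL).comp (tendsto_add_atTop_nat 1))
  rw [sub_self, mul_zero, zero_mul, add_zero] at hlim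
  filter_upwards [hlim.eventually (gt_mem_nhds (show (0:ℝ) < ε / 2 by positivity))] with m hm
  have h1 := key m
  have h2 := hTEN m s t hs hst ht
  linarith

/-- almost every time is good -/
theorem fr_ae : ∀ᵐ s : ℝ, s ∈ Icc 0 T → c.FR s := by
  rw [← ae_restrict_iff' measurableSet_Icc]
  obtain ⟨μ, hμ⟩ : ∃ μ : Measure ℝ, μ = volume.restrict (Icc 0 T) := ⟨_, rfl⟩
  rw [← hμ]
  have hfin : IsFiniteMeasure μ := by
    rw [hμ]
    infer_instance
  have hI : ∀ f : ℝ → ℝ, ContinuousOn f (Icc 0 T) → Integrable f μ := by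
    intro f hf
    rw [hμ]
    exact hf.integrableOn_Icc
  obtain ⟨B, hB⟩ : ∃ B : ℕ → ℕ → Set ℝ, B = fun (p J : ℕ) => {s : ℝ | s ∈ Icc 0 T ∧ ∀ j, J ≤ j →
    (⨆ m, PE L g V m s) + 1 / ((p : ℝ) + 1) < PE L g (u j) (n j) s} := ⟨_, rfl⟩
  have hnull : ∀ p J, μ (B p J) = 0 := by
    intro p J
    obtain ⟨δ, hδ⟩ : ∃ δ : ℝ, δ = 1 / ((p : ℝ) + 1) := ⟨_, rfl⟩
    have hδ0 : 0 < δ := by rw [hδ]; positivity
    have hBd : ∀ s ∈ B p J, s ∈ Icc 0 T ∧ ∀ j, J ≤ j →
        (⨆ m, PE L g V m s) + δ < PE L g (u j) (n j) s := by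
      intro s hs
      rw [hB] at hs
      rw [hδ]
      exact hs
    have hlimI : ∀ m : ℕ, Tendsto (fun j => ∫ s, |PE L g (u j) m s - PE L g V m s| ∂μ) atTop
        (𝓝 0) := by
      intro m
      have h1 : Tendsto (fun j => ∫ s, |PE L g (u j) m s - PE L g V m s| ∂μ) atTop
          (𝓝 (∫ _s, (0 : ℝ) ∂μ)) := by
        refine tendsto_integral_filter_of_dominated_convergence (fun _ => 2 * E1) ?_ ?_ ?_ ?_
        · filter_upwards [c.ev m] with j hj
          exact (hI _ ((PE_cont fun w hw => c.cuw hj w hw).sub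
            (PE_cont fun w _ => c.cV w)).abs).aestronglyMeasurable
        · filter_upwards [c.ev m] with j hj
          rw [hμ, ae_restrict_iff' measurableSet_Icc]
          refine Eventually.of_forall fun s hs => ?_
          have h2 := c.PEj hj hs
          have h3 := c.PEV m hs
          have h4 : 0 ≤ PE L g (u j) m s := PE_nonneg c.L0 c.g0
          have h5 : 0 ≤ PE L g V m s := PE_nonneg c.L0 c.g0
          rw [Real.norm_eq_abs, abs_abs, abs_le]
          constructor <;> linarith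
        · exact integrable_const _
        · rw [hμ, ae_restrict_iff' measurableSet_Icc]
          refine Eventually.of_forall fun s hs => ?_
          have h2 : Tendsto (fun j => PE L g (u j) m s) atTop (𝓝 (PE L g V m s)) :=
            PE_lim fun w => c.lim w s hs
          have h3 := (h2.sub_const (PE L g V m s)).abs
          rw [sub_self, abs_zero] at h3
          exact h3
      rwa [integral_zero] at h1
    have key : ∀ m : ℕ, δ * μ.real (B p J) ≤ (L ^ (m + 1))⁻¹ * D1 := by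
      intro m
      refine le_of_forall_pos_le_add fun η hη => ?_
      obtain ⟨j, hj1, hj2, hj3⟩ := ((c.ev m).and ((eventually_ge_atTop J).and
        ((hlimI m).eventually (gt_mem_nhds hη)))).exists
      obtain ⟨Y, hY⟩ : ∃ Y : ℝ → ℝ, Y = fun s => (PE L g (u j) (n j) s - PE L g (u j) m s) +
        |PE L g (u j) m s - PE L g V m s| := ⟨_, rfl⟩
      have hY0 : ∀ s, 0 ≤ Y s := by
        intro s
        rw [hY]
        have h1 : PE L g (u j) m s ≤ PE L g (u j) (n j) s := PE_mono c.L0 c.g0 hj1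
        have h2 := abs_nonneg (PE L g (u j) m s - PE L g V m s)
        simp only
        linarith
      have i1 : Integrable (fun s => PE L g (u j) (n j) s - PE L g (u j) m s) μ :=
        hI _ ((PE_cont fun w hw => c.cuw le_rfl w hw).sub (PE_cont fun w hw => c.cuw hj1 w hw))
      have i2 : Integrable (fun s => |PE L g (u j) m s - PE L g V m s|) μ :=
        hI _ ((PE_cont fun w hw => c.cuw hj1 w hw).sub (PE_cont fun w _ => c.cV w)).abs
      have hYi : Integrable Y μ := by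
        rw [hY]
        exact i1.add i2
      have h1 := mul_meas_ge_le_integral_of_nonneg (μ := μ) (f := Y) (Eventually.of_forall hY0)
        hYi δ
      have h2 : μ.real (B p J) ≤ μ.real {x | δ ≤ Y x} := by
        refine measureReal_mono fun s hs => ?_
        obtain ⟨hs1, hs2⟩ := hBd s hs
        have h3 := hs2 j hj2
        have h4 := c.PE_le_sup hs1 m
        have h5 := neg_abs_le (PE L g (u j) m s - PE L g V m s)
        have h6 := le_abs_self (PE L g (u j) m s - PE L g V m s)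
        change δ ≤ Y s
        rw [hY]
        simp only
        linarith
      have h3 : ∫ s, Y s ∂μ = (∫ s, (PE L g (u j) (n j) s - PE L g (u j) m s) ∂μ) +
          ∫ s, |PE L g (u j) m s - PE L g V m s| ∂μ := by
        rw [hY]
        exact integral_add i1 i2
      have h4 : (∫ s, (PE L g (u j) (n j) s - PE L g (u j) m s) ∂μ) ≤ (L ^ (m + 1))⁻¹ * D1 := by
        calc (∫ s, (PE L g (u j) (n j) s - PE L g (u j) m s) ∂μ)
            ≤ ∫ s, (L ^ (m + 1))⁻¹ * PD g (u j) (n j) s ∂μ := by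
              refine integral_mono i1 ((hI _ (PD_cont fun w hw => c.cuw le_rfl w hw)).const_mul _)
                fun s => ?_
              exact PE_tail c.hL.le c.g0 hj1
          _ = (L ^ (m + 1))⁻¹ * ∫ s, PD g (u j) (n j) s ∂μ := integral_const_mul _ _
          _ ≤ (L ^ (m + 1))⁻¹ * D1 := by
              have hL0 := c.L0
              refine mul_le_mul_of_nonneg_left ?_ (by positivity)
              refine le_trans (le_of_eq ?_) (c.dis j)
              rw [hμ, intervalIntegral.integral_of_le c.hT.le, integral_Icc_eq_integral_Ioc]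
      have h5 := mul_le_mul_of_nonneg_left h2 hδ0.le
      linarith
    have hz : δ * μ.real (B p J) ≤ 0 := by
      refine ge_of_tendsto' (f := fun m : ℕ => (L ^ (m + 1))⁻¹ * D1) (x := atTop) ?_ key
      have h1 : Tendsto (fun m : ℕ => (L ^ (m + 1))⁻¹ * D1) atTop (𝓝 (0 * D1)) := by
        refine Tendsto.mul_const _ ?_
        exact tendsto_inv_atTop_zero.comp
          ((tendsto_pow_atTop_atTop_of_one_lt c.hL).comp (tendsto_add_atTop_nat 1))
      rwa [zero_mul] at h1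
    have h0 : μ.real (B p J) = 0 := by
      have h1 : 0 ≤ μ.real (B p J) := measureReal_nonneg
      nlinarith
    rwa [measureReal_eq_zero_iff] at h0
  have hall : ∀ᵐ s ∂μ, ∀ p J, s ∉ B p J := by
    rw [ae_all_iff]
    intro p
    rw [ae_all_iff]
    intro J
    exact measure_eq_zero_iff_ae_notMem.1 (hnull p J)
  have hmem : ∀ᵐ s ∂μ, s ∈ Icc 0 T := by
    rw [hμ]
    exact ae_restrict_mem measurableSet_Icc
  filter_upwards [hall, hmem] with s hs hsI δ hδ
  obtain ⟨p, hp⟩ := exists_nat_one_div_lt hδ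
  rw [Filter.frequently_atTop]
  intro J
  by_contra hcon
  push Not at hcon
  refine hs p J ?_
  rw [hB]
  refine ⟨hsI, fun j hj => ?_⟩
  have h1 := hcon j hj
  linarith

end Cx

end Pool.Agent.Q176.DT
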