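import Pool.Agent.Q186.DT.Stm

set_option autoImplicit false

/-! Project DT (helper186): basic facts on the finite sums over the generations up to `N`. -/

namespace Pool.Agent.Q176.DT

open Set Filter Topology MeasureTheory
open Pool.Agent.Q186.DT

variable {K : ℕ}

theorem len_le {N n : ℕ} {w : Nd K} (hn : n ∈ Finset.range (N + 1)) (hw : w ∈ lev K n) :
    w.length ≤ N := by
  rw [mem_lev] at hw
  rw [Finset.mem_range] at hn
  omega

theorem sm_le_sm {N : ℕ} {f h : Nd K → ℝ} (H : ∀ w : Nd K, w.length ≤ N → f w ≤ h w) :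
    sm N f ≤ sm N h :=
  Finset.sum_le_sum fun _ hn => Finset.sum_le_sum fun w hw => H w (len_le hn hw)

theorem sm_congr {N : ℕ} {f h : Nd K → ℝ} (H : ∀ w : Nd K, w.length ≤ N → f w = h w) :
    sm N f = sm N h :=
  Finset.sum_congr rfl fun _ hn => Finset.sum_congr rfl fun w hw => H w (len_le hn hw)

theorem sm_nonneg {N : ℕ} {f : Nd K → ℝ} (H : ∀ w : Nd K, w.length ≤ N → 0 ≤ f w) :
    0 ≤ sm N f :=
  Finset.sum_nonneg fun _ hn => Finset.sum_nonneg fun w hw => H w (len_le hn hw)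

theorem sm_add {N : ℕ} (f h : Nd K → ℝ) : sm N (fun w => f w + h w) = sm N f + sm N h := by
  unfold sm
  simp only [Finset.sum_add_distrib]

theorem sm_sub {N : ℕ} (f h : Nd K → ℝ) : sm N (fun w => f w - h w) = sm N f - sm N h := by
  unfold sm
  simp only [Finset.sum_sub_distrib]

theorem sm_mul {N : ℕ} (c : ℝ) (f : Nd K → ℝ) : sm N (fun w => c * f w) = c * sm N f := by
  unfold sm
  simp only [Finset.mul_sum]

theorem single_le_sm {N : ℕ} {f : Nd K → ℝ} (H : ∀ w : Nd K, w.length ≤ N → 0 ≤ f w) {w : Nd K}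
    (hw : w.length ≤ N) : f w ≤ sm N f := by
  have h1 : w.length ∈ Finset.range (N + 1) := by
    rw [Finset.mem_range]
    omega
  have h2 : w ∈ lev K w.length := by rw [mem_lev]
  calc f w ≤ ∑ v ∈ lev K w.length, f v :=
        Finset.single_le_sum (fun v hv => H v (len_le h1 hv)) h2
    _ ≤ sm N f := Finset.single_le_sum (f := fun n => ∑ v ∈ lev K n, f v)
        (fun n hn => Finset.sum_nonneg fun v hv => H v (len_le hn hv)) h1

theorem sm_diff {m N : ℕ} (hmN : m ≤ N) (f : Nd K → ℝ) :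
    sm N f - sm m f = ∑ n ∈ Finset.Ico (m + 1) (N + 1), ∑ w ∈ lev K n, f w := by
  unfold sm
  rw [Finset.sum_Ico_eq_sub _ (by omega)]

theorem sm_tail {m N : ℕ} (hmN : m ≤ N) {f h : Nd K → ℝ}
    (H : ∀ w : Nd K, m < w.length → f w ≤ h w) : sm N f - sm m f ≤ sm N h - sm m h := by
  rw [sm_diff hmN, sm_diff hmN]
  refine Finset.sum_le_sum fun n hn => Finset.sum_le_sum fun w hw => H w ?_
  rw [mem_lev] at hw
  rw [Finset.mem_Ico] at hn
  omega

theorem sm_mono {m N : ℕ} (hmN : m ≤ N) {f : Nd K → ℝ} (H : ∀ w : Nd K, 0 ≤ f w) :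
    sm m f ≤ sm N f := by
  have h1 := sm_tail hmN (f := fun _ : Nd K => (0 : ℝ)) (h := f) fun w _ => H w
  have h2 : ∀ n : ℕ, sm n (fun _ : Nd K => (0 : ℝ)) = 0 := fun n => by
    unfold sm
    simp
  rw [h2, h2] at h1
  linarith

theorem sm_cont {N : ℕ} {f : Nd K → ℝ → ℝ} {S : Set ℝ}
    (H : ∀ w : Nd K, w.length ≤ N → ContinuousOn (f w) S) :
    ContinuousOn (fun t => sm N fun w => f w t) S :=
  continuousOn_finsetSum _ fun _ hn => continuousOn_finsetSum _ fun w hw => H w (len_le hn hw)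

theorem sm_lim {N : ℕ} {f : ℕ → Nd K → ℝ} {f0 : Nd K → ℝ}
    (H : ∀ w, Tendsto (fun j => f j w) atTop (𝓝 (f0 w))) :
    Tendsto (fun j => sm N (f j)) atTop (𝓝 (sm N f0)) :=
  tendsto_finsetSum _ fun _ _ => tendsto_finsetSum _ fun w _ => H w

section

variable {L g k : ℝ} {F V : Nd K → ℝ → ℝ} {N m : ℕ} {t : ℝ}

theorem PE_nonneg (hL : 0 < L) (hg : 0 < g) : 0 ≤ PE L g V N t :=
  sm_nonneg fun w _ => by positivity

theorem PD_nonneg (hg : 0 < g) : 0 ≤ PD g V N t :=
  sm_nonneg fun w _ => by positivity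

theorem PE_mono (hL : 0 < L) (hg : 0 < g) (h : m ≤ N) : PE L g V m t ≤ PE L g V N t :=
  sm_mono h fun w => by positivity

theorem PD_mono (hg : 0 < g) (h : m ≤ N) : PD g V m t ≤ PD g V N t :=
  sm_mono h fun w => by positivity

theorem PE_cont {S : Set ℝ} (H : ∀ w : Nd K, w.length ≤ N → ContinuousOn (V w) S) :
    ContinuousOn (PE L g V N) S :=
  sm_cont (f := fun w t => (g / L) ^ w.length * V w t ^ 2) fun w hw =>
    continuousOn_const.mul ((H w hw).pow 2)

theorem PD_cont {S : Set ℝ} (H : ∀ w : Nd K, w.length ≤ N → ContinuousOn (V w) S) :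
    ContinuousOn (PD g V N) S :=
  sm_cont (f := fun w t => g ^ w.length * V w t ^ 2) fun w hw =>
    continuousOn_const.mul ((H w hw).pow 2)

theorem PF_cont {S : Set ℝ} (HF : ∀ w : Nd K, w.length ≤ N → ContinuousOn (F w) S)
    (H : ∀ w : Nd K, w.length ≤ N → ContinuousOn (V w) S) : ContinuousOn (PF L g F V N) S :=
  sm_cont (f := fun w t => (g / L) ^ w.length * (V w t * F w t)) fun w hw =>
    continuousOn_const.mul ((H w hw).mul (HF w hw))

theorem PE_lim {u : ℕ → Nd K → ℝ → ℝ}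
    (H : ∀ w, Tendsto (fun j => u j w t) atTop (𝓝 (V w t))) :
    Tendsto (fun j => PE L g (u j) N t) atTop (𝓝 (PE L g V N t)) :=
  sm_lim fun w => ((H w).pow 2).const_mul _

theorem PD_lim {u : ℕ → Nd K → ℝ → ℝ}
    (H : ∀ w, Tendsto (fun j => u j w t) atTop (𝓝 (V w t))) :
    Tendsto (fun j => PD g (u j) N t) atTop (𝓝 (PD g V N t)) :=
  sm_lim fun w => ((H w).pow 2).const_mul _

theorem PF_lim {u : ℕ → Nd K → ℝ → ℝ}
    (H : ∀ w, Tendsto (fun j => u j w t) atTop (𝓝 (V w t))) :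
    Tendsto (fun j => PF L g F (u j) N t) atTop (𝓝 (PF L g F V N t)) :=
  sm_lim fun w => ((H w).mul_const _).const_mul _

theorem PD_le (hL : 1 ≤ L) (hg : 0 < g) : PD g V N t ≤ L ^ N * PE L g V N t := by
  unfold PD PE
  rw [← sm_mul]
  refine sm_le_sm fun w hw => ?_
  have hL0 : 0 < L := by linarith
  have e1 : g ^ w.length = L ^ w.length * (g / L) ^ w.length := by
    rw [div_pow]
    field_simp
  rw [e1, mul_assoc]
  exact mul_le_mul_of_nonneg_right (pow_le_pow_right₀ hL hw) (by positivity)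

theorem PF_le (hL : 0 < L) (hg : 0 < g) :
    |PF L g F V N t| ≤ (PE L g V N t + PE L g F N t) / 2 := by
  have key : ∀ σ : ℝ, σ ^ 2 = 1 → σ * PF L g F V N t ≤ (PE L g V N t + PE L g F N t) / 2 := by
    intro σ hσ
    have e1 : (PE L g V N t + PE L g F N t) / 2 =
        sm N (fun w : Nd K => 1 / 2 * ((g / L) ^ w.length * V w t ^ 2 +
          (g / L) ^ w.length * F w t ^ 2)) := by
      rw [sm_mul, sm_add]
      unfold PE
      ring
    rw [e1]
    unfold PF
    rw [← sm_mul]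
    refine sm_le_sm fun w _ => ?_
    have h1 : 0 ≤ (g / L) ^ w.length * (V w t - σ * F w t) ^ 2 := by positivity
    have h2 : (V w t - σ * F w t) ^ 2 = V w t ^ 2 + F w t ^ 2 - 2 * (σ * (V w t * F w t)) := by
      linear_combination (F w t ^ 2) * hσ
    rw [h2] at h1
    nlinarith
  rw [abs_le]
  constructor
  · have := key (-1) (by norm_num)
    linarith
  · have := key 1 (by norm_num)
    linarith

/-- tails of the energy -/
theorem PE_tail (hL : 1 ≤ L) (hg : 0 < g) (h : m ≤ N) :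
    PE L g V N t - PE L g V m t ≤ (L ^ (m + 1))⁻¹ * PD g V N t := by
  have hL0 : 0 < L := by linarith
  have h1 := sm_tail h (f := fun w : Nd K => (g / L) ^ w.length * V w t ^ 2)
    (h := fun w : Nd K => (L ^ (m + 1))⁻¹ * (g ^ w.length * V w t ^ 2)) (fun w hw => by
      have e1 : (g / L) ^ w.length * V w t ^ 2 =
          (L ^ w.length)⁻¹ * (g ^ w.length * V w t ^ 2) := by
        rw [div_pow]
        field_simp
      rw [e1]
      refine mul_le_mul_of_nonneg_right ?_ (by positivity)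
      exact inv_anti₀ (by positivity) (pow_le_pow_right₀ hL (by omega)))
  rw [sm_mul, sm_mul] at h1
  have h2 : 0 ≤ (L ^ (m + 1))⁻¹ * sm m (fun w : Nd K => g ^ w.length * V w t ^ 2) :=
    mul_nonneg (by positivity) (PD_nonneg hg)
  unfold PE PD
  linarith

/-- tails of the power of the force -/
theorem PF_tail (hL : 1 ≤ L) (hg : 0 < g) (h : m ≤ N) {ρ : ℝ} (hρ : 0 < ρ) :
    2 * (PF L g F V N t - PF L g F V m t) ≤
      ρ⁻¹ * (L ^ (m + 1))⁻¹ * PD g V N t + ρ * PE L g F N t := by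
  have hL0 : 0 < L := by linarith
  have h1 := sm_tail h (f := fun w : Nd K => 2 * ((g / L) ^ w.length * (V w t * F w t)))
    (h := fun w : Nd K => ρ⁻¹ * ((g / L) ^ w.length * V w t ^ 2) +
      ρ * ((g / L) ^ w.length * F w t ^ 2)) (fun w _ => by
      have h2 : 0 ≤ ρ⁻¹ * ((g / L) ^ w.length * (V w t - ρ * F w t) ^ 2) := by positivity
      have h3 : ρ⁻¹ * ((g / L) ^ w.length * (V w t - ρ * F w t) ^ 2) =
          ρ⁻¹ * ((g / L) ^ w.length * V w t ^ 2) + ρ * ((g / L) ^ w.length * F w t ^ 2) -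
            2 * ((g / L) ^ w.length * (V w t * F w t)) := by
        field_simp
        ring
      linarith)
  rw [sm_mul, sm_mul, sm_add, sm_mul, sm_mul, sm_add, sm_mul, sm_mul] at h1
  have h2 := PE_tail (V := V) (t := t) hL hg h
  have h3 : 0 ≤ ρ * PE L g F m t := mul_nonneg hρ.le (PE_nonneg hL0 hg)
  have h4 := mul_le_mul_of_nonneg_left h2 (inv_nonneg.2 hρ.le)
  unfold PF
  unfold PE at h2 h3 h4 ⊢
  unfold PD at h2 h4 ⊢
  linarith

end

end Pool.Agent.Q176.DT
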