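import Pool.Agent.Q176.DT.Lim

set_option autoImplicit false

/-! Project DT (helper186), job TLH: existence of Leray-Hopf solutions for all data of finite
energy. -/

namespace Pool.Agent.Q176.DT

open Set Filter Topology MeasureTheory
open Pool.Agent.Q186.DT

variable {K : ℕ} {L g k T : ℝ} {N : ℕ} {F : Nd K → ℝ → ℝ} {a : Nd K → ℝ} {U : Nd K → ℝ → ℝ}

theorem TrT.cont (H : TrT L g k T N F a U) (w : Nd K) (hw : w.length ≤ N) :
    ContinuousOn (U w) (Icc 0 T) := fun t ht => (H.deriv w hw t ht).continuousWithinAt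

theorem TrT.cont' (H : TrT L g k T N F a U) (w : Nd K) (hw : w.length ≤ N + 1) :
    ContinuousOn (U w) (Icc 0 T) := by
  by_cases h1 : w.length ≤ N
  · exact TrT.cont H w h1
  · cases w with
    | nil => exact absurd (Nat.zero_le N) h1
    | cons i w =>
      have h2 : w.length = N := by
        rw [List.length_cons] at hw h1
        omega
      have h3 : ContinuousOn (fun t => max (U w t) 0) (Icc 0 T) :=
        (TrT.cont H w h2.le).sup continuousOn_const
      exact h3.congr fun t ht => H.last i w h2 t ht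

theorem TrT.fl_nonneg (H : TrT L g k T N F a U) (hg : 0 < g) {t : ℝ} (ht : t ∈ Icc 0 T) :
    0 ≤ fl g U N t := by
  unfold fl
  refine mul_nonneg (by positivity) (Finset.sum_nonneg fun w hw => ?_)
  rw [mem_lev] at hw
  refine mul_nonneg (sq_nonneg _) ?_
  unfold ch
  refine Finset.sum_nonneg fun i _ => ?_
  rw [H.last i w hw t ht]
  exact le_max_right _ _

/-- the energy inequality of the truncated systems -/
theorem TrT.ineq (hTEN : P_TEN) (H : TrT L g k T N F a U) (hL : 0 < L) (hg : 0 < g)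
    (hF : ∀ w : Nd K, ContinuousOn (F w) (Icc 0 T)) {s t : ℝ} (hs : 0 ≤ s) (hst : s ≤ t)
    (ht : t ≤ T) : PE L g U N t + 2 * k * (∫ r in s..t, PD g U N r) ≤
      PE L g U N s + 2 * ∫ r in s..t, PF L g F U N r := by
  have h1 := hTEN K L g k T F U N hL hg hF (fun w hw => TrT.cont' H w hw)
    (fun w hw => H.deriv w hw) s t hs hst ht
  have h2 : 0 ≤ ∫ r in s..t, fl g U N r :=
    intervalIntegral.integral_nonneg hst fun r hr =>
      TrT.fl_nonneg H hg ⟨hs.trans hr.1, hr.2.trans ht⟩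
  linarith

/-- **Job TLH.** -/
theorem t_TLH : P_TEN → P_TTR → P_TEB → P_TCP → P_TLH := by
  intro hTEN hTTR hTEB hTCP K L g k T EF E0 F h a hK hL hg hk hT hF ha
  have hL0 : 0 < L := by linarith
  have hg0 : 0 < g := by linarith
  have h0T : (0 : ℝ) ∈ Icc 0 T := ⟨le_rfl, hT.le⟩
  choose U hU using fun N => hTTR K L g k T N F a hL.le hg hk hT hF.cont
  obtain ⟨E1, hE1⟩ : ∃ E1 : ℝ, E1 = (E0 + T * EF) * Real.exp T := ⟨_, rfl⟩
  have hPE0 : ∀ N, PE L g (U N) N 0 = sm N fun w => (g / L) ^ w.length * a w ^ 2 := by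
    intro N
    refine sm_congr fun w hw => ?_
    rw [(hU N).init w hw]
  have hen : ∀ N, ∀ t ∈ Icc 0 T, PE L g (U N) N t ≤ E1 := by
    intro N t ht
    rw [hE1]
    exact hTEB K L g k T EF E0 N F h a (U N) hL.le hg hk hT hF (hU N)
      (by rw [hPE0]; exact ha N) t ht
  have hE10 : 0 ≤ E1 := (PE_nonneg hL0 hg0).trans (hen 0 0 h0T)
  obtain ⟨C, hC⟩ : ∃ C : Nd K → ℝ, C = fun w => Real.sqrt (E1 * (L / g) ^ w.length) := ⟨_, rfl⟩
  have hCb : ∀ N w, w.length ≤ N → ∀ t ∈ Icc 0 T, |U N w t| ≤ C w := by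
    intro N w hw t ht
    rw [hC]
    refine Real.abs_le_sqrt ?_
    have h1 : (g / L) ^ w.length * U N w t ^ 2 ≤ E1 :=
      (single_le_sm (f := fun w : Nd K => (g / L) ^ w.length * U N w t ^ 2)
        (fun v _ => by positivity) hw).trans (hen N t ht)
    have h2 : U N w t ^ 2 = ((g / L) ^ w.length * U N w t ^ 2) * (L / g) ^ w.length := by
      have h3 : (g / L) ^ w.length * (L / g) ^ w.length = 1 := by
        rw [← mul_pow, div_mul_div_comm, mul_comm g L, div_self (by positivity), one_pow]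
      calc U N w t ^ 2 = ((g / L) ^ w.length * (L / g) ^ w.length) * U N w t ^ 2 := by
            rw [h3, one_mul]
        _ = _ := by ring
    rw [h2]
    exact mul_le_mul_of_nonneg_right h1 (by positivity)
  obtain ⟨V, φ, hV, hV0, hφ, hlim⟩ := hTCP K L g k T F a C U hL.le hg hk hT hF.cont hU hCb
  have hcV : ∀ w : Nd K, ContinuousOn (V w) (Icc 0 T) := fun w t ht =>
    (hV w t ht).continuousWithinAt
  have hineq : ∀ (N : ℕ) (s t : ℝ), 0 ≤ s → s ≤ t → t ≤ T →
      PE L g (U N) N t + 2 * k * (∫ r in s..t, PD g (U N) N r) ≤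
        PE L g (U N) N s + 2 * ∫ r in s..t, PF L g F (U N) N r := fun N s t hs hst ht =>
    TrT.ineq hTEN (hU N) hL0 hg0 hF.cont hs hst ht
  have hdis : ∀ N, (∫ r in (0:ℝ)..T, PD g (U N) N r) ≤ (E1 + T * (E1 + EF)) / (2 * k) := by
    intro N
    have h1 := hineq N 0 T le_rfl hT.le le_rfl
    have h2 : 0 ≤ PE L g (U N) N T := PE_nonneg hL0 hg0
    have h3 := hen N 0 h0T
    have h4 : (∫ r in (0:ℝ)..T, PF L g F (U N) N r) ≤ ∫ _r in (0:ℝ)..T, (E1 + EF) / 2 := by
      refine intervalIntegral.integral_mono_on hT.le ?_ intervalIntegrable_const fun r hr => ?_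
      · refine ContinuousOn.intervalIntegrable ?_
        rw [uIcc_of_le hT.le]
        exact PF_cont (fun w _ => hF.cont w) fun w hw => TrT.cont (hU N) w hw
      · have h5 := (abs_le.1 (PF_le (F := F) (V := U N) (N := N) (t := r) hL0 hg0)).2
        have h6 := hen N r hr
        have h7 := hF.en N r hr
        linarith
    rw [intervalIntegral.integral_const, smul_eq_mul, sub_zero] at h4
    rw [le_div_iff₀ (by positivity)]
    nlinarith
  have c : Cx L g k T EF E1 ((E1 + T * (E1 + EF)) / (2 * k)) F V h (fun j => U (φ j)) φ :=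
    { hL := hL
      hg := hg
      hk := hk
      hT := hT
      hF := hF
      cu := fun j w hw => TrT.cont (hU (φ j)) w hw
      cV := hcV
      en := fun j => hen (φ j)
      dis := fun j => hdis (φ j)
      ineq := fun j => hineq (φ j)
      lim := hlim
      nt := hφ.tendsto_atTop }
  have hTV : ∀ (N : ℕ) (s t : ℝ), 0 ≤ s → s ≤ t → t ≤ T →
      PE L g V N t + 2 * k * (∫ r in s..t, PD g V N r) + 2 * (∫ r in s..t, fl g V N r)
        = PE L g V N s + 2 * (∫ r in s..t, PF L g F V N r) := fun N s t hs hst ht =>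
    hTEN K L g k T F V N hL0 hg0 hF.cont (fun w _ => hcV w) (fun w _ => hV w) s t hs hst ht
  have hfr0 : c.FR 0 := by
    intro δ hδ
    refine (Eventually.of_forall fun j => ?_).frequently
    have h1 : PE L g (U (φ j)) (φ j) 0 = PE L g V (φ j) 0 := by
      rw [hPE0]
      refine sm_congr fun w _ => ?_
      rw [hV0 w]
    have h2 := c.PE_le_sup h0T (φ j)
    rw [h1]
    linarith
  refine ⟨V, ⟨hV, ⟨E1, fun N t ht => c.PEV N ht⟩, ⟨_, c.disV⟩, fun t ht => ?_, ?_⟩, hV0⟩
  · exact c.ei hTV le_rfl ht.1 ht.2 hfr0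
  · filter_upwards [c.fr_ae] with s hs hsI t ht
    exact c.ei hTV hsI.1 ht.1 ht.2 (hs hsI)

end Pool.Agent.Q176.DT
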