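import Pool.Agent.Q260.DT.Stm
import Pool.Agent.Q210.DS.LB

/-! # Project DT of helper260, job UQ: the inverse formula gives an upper bound -/

set_option autoImplicit false

namespace Pool.Agent.Q176.DT

open Complex Filter Topology Metric Set MeasureTheory
open Pool.Agent.Q260.DS (Sys Nm EE NZ)
open Pool.Agent.Q260.DT

/-- two sided exponential decay is integrable -/
theorem int_ea {κ : ℝ} (hκ : 0 < κ) : Integrable (fun v : ℝ => Real.exp (-(κ * |v|))) := by
  rw [← integrableOn_univ, ← Set.Iic_union_Ioi (a := (0:ℝ)), integrableOn_union]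
  constructor
  · have h1 := integrableOn_exp_mul_Iic (a := κ) hκ 0
    apply h1.congr_fun _ measurableSet_Iic
    intro u hu
    simp only [abs_of_nonpos (Set.mem_Iic.mp hu)]
    congr 1; ring
  · have h1 := integrableOn_exp_mul_Ioi (a := -κ) (by linarith) 0
    apply h1.congr_fun _ measurableSet_Ioi
    intro u hu
    simp only [abs_of_pos (Set.mem_Ioi.mp hu)]
    congr 1; ring

/-- the logarithm is slow -/
theorem log_slow {K η : ℝ} (hK : 0 < K) (hη : 0 < η) :
    ∃ D : ℝ, 0 ≤ D ∧ ∀ s : ℝ, 0 ≤ s → K * Real.log (2 + s) ≤ η * s + D := by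
  refine ⟨max 0 (2 * η - K * Real.log (η / K)), le_max_left _ _, fun s hs => ?_⟩
  have h1 := Real.log_le_sub_one_of_pos (show 0 < η / K * (2 + s) by positivity)
  rw [Real.log_mul (by positivity) (by positivity)] at h1
  have h2 := mul_le_mul_of_nonneg_left h1 hK.le
  have h3 : K * (η / K * (2 + s) - 1) = η * (2 + s) - K := by field_simp
  have h4 := le_max_right 0 (2 * η - K * Real.log (η / K))
  rw [h3] at h2
  nlinarith

/-- the error term is small -/
theorem ee_small {C δ ε : ℝ} (hC : 1 ≤ C) (hδ : 0 < δ) (hδ1 : δ ≤ 1 / 2) (hε : 0 < ε) :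
    ∃ L0 : ℝ, 1 ≤ L0 ∧ ∀ L M : ℝ, L0 ≤ L → 0 ≤ M → M ≤ 2 * L → EE C M δ ≤ ε * L := by
  have h1 : 0 < δ / C := by positivity
  have h2 := tendsto_rpow_neg_atTop h1
  have h3 : 0 < ε * δ ^ 2 / (2 * C) := by positivity
  obtain ⟨L0, hL0⟩ := eventually_atTop.1 (h2.eventually (eventually_le_nhds h3))
  refine ⟨max L0 1, le_max_right _ _, fun L M hL hM hML => ?_⟩
  have h4 := hL0 L ((le_max_left _ _).trans hL)
  have h5 : 1 ≤ L := (le_max_right _ _).trans hL
  have h6 : δ / C ≤ 1 := by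
    rw [div_le_one (by linarith)]
    linarith
  unfold EE
  have h7 : M ^ (1 - δ / C) ≤ (2 * L) ^ (1 - δ / C) :=
    Real.rpow_le_rpow hM hML (by linarith)
  have h8 : (2 * L) ^ (1 - δ / C) = (2 : ℝ) ^ (1 - δ / C) * (L * L ^ (-(δ / C))) := by
    rw [Real.mul_rpow (by norm_num) (by linarith), sub_eq_add_neg 1 (δ / C),
      Real.rpow_add (by linarith : 0 < L), Real.rpow_one]
  have h9 : (2 : ℝ) ^ (1 - δ / C) ≤ 2 := by
    calc (2 : ℝ) ^ (1 - δ / C) ≤ (2 : ℝ) ^ (1 : ℝ) :=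
          Real.rpow_le_rpow_of_exponent_le (by norm_num) (by linarith)
      _ = 2 := Real.rpow_one 2
  have h10 : 0 ≤ L ^ (-(δ / C)) := Real.rpow_nonneg (by linarith) _
  calc C / δ ^ 2 * M ^ (1 - δ / C) ≤ C / δ ^ 2 * (2 * (L * (ε * δ ^ 2 / (2 * C)))) := by
        refine mul_le_mul_of_nonneg_left (h7.trans ?_) (by positivity)
        rw [h8]
        refine mul_le_mul h9 (mul_le_mul_of_nonneg_left h4 (by linarith)) (by positivity)
          (by norm_num)
    _ = ε * L := by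
        field_simp

/-- the bound for the two-shift average -/
theorem fa_bd {ϑ : ℝ} {f : ℂ → ℂ} {l g : ℝ → ℝ} (h3 : S_SZ) (h4 : S_LF) (H : Rl ϑ f l g)
    {a δ η : ℝ} {u : ℂ} (hu : ‖u‖ = 1) (ha : 0 < a) (ha1 : a ≤ 1) (hη : 0 < η) (hδ : 0 < δ)
    (hδ1 : δ ≤ 1 / 2) :
    ∃ C : ℝ, 1 ≤ C ∧ ∀ T σ : ℝ, C ≤ T → 0 ≤ σ → σ ≤ 1 →
      NZ (Fa f a u) σ (T - C * l T) (T + C * l T) → ∀ x : ℝ, σ + δ ≤ x → x ≤ 3 - a →
      ∀ v : ℝ, ‖Fa f a u ((x : ℂ) + I * T + I * v)‖ ≤
        C * (Real.exp (δ / 4 * l T) * (g T * Real.exp (l T * (x + a)))) *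
          Real.exp (-(ϑ * v) + 2 * η * |v|) := by
  obtain ⟨K, A, y0, hK, hA, hS⟩ := H.sys
  obtain ⟨C3, hC3, hsz⟩ := (h3 ϑ f l g H η 4 hη (by norm_num)).1
  obtain ⟨C4, hC4, hlf⟩ := h4 ϑ f l g H a u ha hu
  obtain ⟨Cr, hr⟩ := H.rate η hη
  obtain ⟨D, hD, hlog⟩ := log_slow (K := 3 * K) (by linarith) hη
  obtain ⟨K1, hK1⟩ : ∃ K1 : ℝ, K1 = C3 / η := ⟨_, rfl⟩
  have hK10 : 0 ≤ K1 := by rw [hK1]; positivity
  obtain ⟨D1, hD1, hlog1⟩ := log_slow (K := K) (η := 1 / (2 * (K1 + 1))) (by linarith)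
    (by positivity)
  obtain ⟨L0, hL0, hee⟩ := ee_small (ε := δ / 4) hC4 hδ hδ1 (by linarith)
  obtain ⟨Y, hY⟩ := eventually_atTop.1 (H.lim.eventually_ge_atTop (L0 + 2 * D1))
  obtain ⟨Z, hZ⟩ : ∃ Z : ℝ, Z = 2 * (C3 + C4 + K1 * (|l 0| + D1)) := ⟨_, rfl⟩
  have hZ0 : 0 ≤ Z := by rw [hZ]; positivity
  obtain ⟨C, hC⟩ : ∃ C : ℝ, C = |Y| + Z + C3 + K1 + 4 + 2 + Real.exp (Cr + D) := ⟨_, rfl⟩
  have hE := Real.exp_pos (Cr + D)
  have hY0 := abs_nonneg Y
  refine ⟨C, by rw [hC]; linarith, ?_⟩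
  intro T σ hT hσ hσ1 hnz x hx1 hx2 v
  have hTY : Y ≤ T := by
    have := le_abs_self Y
    rw [hC] at hT
    linarith
  have hTZ : Z ≤ T := by rw [hC] at hT; linarith
  have hTC3 : C3 ≤ T := by rw [hC] at hT; linarith
  have hT0 : 0 ≤ T := by linarith
  have hLY := hY T hTY
  have hL1 : 1 ≤ l T := by linarith
  have hgT := hS.pos T
  obtain ⟨L, hL⟩ : ∃ L : ℝ, L = l T := ⟨_, rfl⟩
  rw [← hL] at hLY hL1 hnz ⊢
  -- slow growth
  have hgrow : K1 * L ≤ T / 2 + K1 * (|l 0| + D1) := by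
    have s1 := (abs_le.1 (hS.shift 0 T)).2
    rw [zero_add, abs_of_nonneg hT0, ← hL] at s1
    have s2 := hlog1 T hT0
    have s3 := le_abs_self (l 0)
    have s4 : L ≤ |l 0| + D1 + 1 / (2 * (K1 + 1)) * T := by linarith
    have s5 := mul_le_mul_of_nonneg_left s4 hK10
    have s6 : K1 * (1 / (2 * (K1 + 1)) * T) ≤ T / 2 := by
      have : K1 * (1 / (2 * (K1 + 1)) * T) = K1 / (K1 + 1) * (T / 2) := by
        field_simp
      rw [this]
      have h7 : K1 / (K1 + 1) ≤ 1 := by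
        rw [div_le_one (by linarith)]
        linarith
      have := mul_le_mul_of_nonneg_right h7 (by linarith : 0 ≤ T / 2)
      linarith
    linarith
  obtain ⟨Q, hQ⟩ : ∃ Q : ℝ, Q = Real.exp (δ / 4 * L) * (g T * Real.exp (L * (x + a))) :=
    ⟨_, rfl⟩
  have hQ0 : 0 < Q := by rw [hQ]; positivity
  rw [← hQ]
  have hz : (x : ℂ) + I * T + I * v = (x : ℂ) + I * ((T + v : ℝ) : ℂ) := by
    push_cast
    ring
  rw [hz]
  rcases le_or_gt |v| (K1 * L) with hv | hv
  · -- the central range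
    have v1 := abs_le.1 hv
    have hTv : C3 + C4 ≤ T + v := by
      rw [hZ] at hTZ
      linarith [v1.1]
    have hTv0 : 0 ≤ T + v := by linarith
    obtain ⟨b1, b2⟩ := hlf (T + v) σ δ (by linarith) hσ hσ1 hδ hδ1 (by
      intro z z1 z2 z3 z4
      have c1 : K1 * L + 4 ≤ C * L := by
        have c2 : K1 + 4 ≤ C := by rw [hC]; linarith
        have c3 := mul_le_mul_of_nonneg_right c2 (by linarith : 0 ≤ L)
        nlinarith
      exact hnz z z1 z2 (by linarith [v1.1]) (by linarith [v1.2])) x hx1 (by linarith)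
    have hN : 0 < Nm l g 0 (T + v) (x + a) := by
      unfold Nm
      rw [pow_zero, mul_one]
      exact mul_pos (hS.pos _) (Real.exp_pos _)
    have b3 := (abs_le.1 b2).2
    have b4 : 0 < ‖Fa f a u ((x : ℂ) + I * ((T + v : ℝ) : ℂ))‖ := norm_pos_iff.2 b1
    rw [Real.log_le_iff_le_exp (div_pos b4 hN), div_le_iff₀ hN] at b3
    -- slope
    have s1 := (abs_le.1 (hS.shift T v)).2
    rw [← hL] at s1
    have s2 : K * Real.log (2 + |v|) ≤ K * Real.log (2 + K1 * L) := by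
      refine mul_le_mul_of_nonneg_left (Real.log_le_log (by positivity) (by linarith)) (by linarith)
    have s3 := hlog1 (K1 * L) (by positivity)
    have s4 : 1 / (2 * (K1 + 1)) * (K1 * L) ≤ L / 2 := by
      have : 1 / (2 * (K1 + 1)) * (K1 * L) = K1 / (K1 + 1) * (L / 2) := by
        field_simp
      rw [this]
      have h7 : K1 / (K1 + 1) ≤ 1 := by
        rw [div_le_one (by linarith)]
        linarith
      have := mul_le_mul_of_nonneg_right h7 (by linarith : 0 ≤ L / 2)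
      linarith
    have s5 : l (T + v) ≤ 2 * L := by linarith
    have s6 : 1 ≤ l (T + v) := (hsz (T + v) 0 0 (by linarith) (by norm_num)).1
    have s7 := hee L (l (T + v)) (by linarith) (by linarith) s5
    -- size
    have r1 := (abs_le.1 (hr T v)).2
    rw [abs_of_nonneg hTv0, abs_of_nonneg hT0] at r1
    have r2 : g (T + v) ≤ g T * Real.exp (-(ϑ * v) + η * |v| + Cr) := by
      have r3 : Real.log (g (T + v)) ≤ Real.log (g T) + (-(ϑ * v) + η * |v| + Cr) := by
        nlinarith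
      have r4 := Real.exp_le_exp.2 r3
      rwa [Real.exp_log (hS.pos _), Real.exp_add, Real.exp_log hgT] at r4
    have r5 : l (T + v) * (x + a) ≤ L * (x + a) + (η * |v| + D) := by
      have t1 := hlog |v| (abs_nonneg v)
      have t2 : 0 ≤ Real.log (2 + |v|) := Real.log_nonneg (by linarith [abs_nonneg v])
      have t3 : l (T + v) * (x + a) ≤ (L + K * Real.log (2 + |v|)) * (x + a) :=
        mul_le_mul_of_nonneg_right (by linarith) (by linarith)
      have t4 : K * Real.log (2 + |v|) * (x + a) ≤ K * Real.log (2 + |v|) * 3 :=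
        mul_le_mul_of_nonneg_left (by linarith) (by positivity)
      nlinarith
    have r6 : Nm l g 0 (T + v) (x + a) ≤ g T * Real.exp (-(ϑ * v) + η * |v| + Cr) *
        Real.exp (L * (x + a) + (η * |v| + D)) := by
      unfold Nm
      rw [pow_zero, mul_one]
      exact mul_le_mul r2 (Real.exp_le_exp.2 r5) (Real.exp_pos _).le (by positivity)
    have r7 : ‖Fa f a u ((x : ℂ) + I * ((T + v : ℝ) : ℂ))‖ ≤ Real.exp (δ / 4 * L) *
        (g T * Real.exp (-(ϑ * v) + η * |v| + Cr) *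
          Real.exp (L * (x + a) + (η * |v| + D))) :=
      b3.trans (mul_le_mul (Real.exp_le_exp.2 s7) r6 hN.le (Real.exp_pos _).le)
    refine r7.trans ?_
    have r8 : Real.exp (δ / 4 * L) * (g T * Real.exp (-(ϑ * v) + η * |v| + Cr) *
        Real.exp (L * (x + a) + (η * |v| + D))) =
        Real.exp (Cr + D) * Q * Real.exp (-(ϑ * v) + 2 * η * |v|) := by
      rw [hQ]
      have e1 : Real.exp (-(ϑ * v) + η * |v| + Cr) * Real.exp (L * (x + a) + (η * |v| + D)) =
          Real.exp (Cr + D) * Real.exp (L * (x + a)) * Real.exp (-(ϑ * v) + 2 * η * |v|) := by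
        rw [← Real.exp_add, ← Real.exp_add, ← Real.exp_add]
        congr 1
        ring
      calc _ = Real.exp (δ / 4 * L) * (g T * (Real.exp (-(ϑ * v) + η * |v| + Cr) *
            Real.exp (L * (x + a) + (η * |v| + D)))) := by ring
        _ = _ := by
            rw [e1]
            ring
    rw [r8]
    refine mul_le_mul_of_nonneg_right (mul_le_mul_of_nonneg_right ?_ hQ0.le) (Real.exp_pos _).le
    rw [hC]
    linarith
  · -- the tails
    have w1 := (hsz T v (x + a) hTC3 (by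
      rw [abs_of_nonneg (by linarith)]
      linarith)).2
    have w2 := (hsz T v (x - a) hTC3 (by
      rw [abs_le]
      constructor <;> linarith)).2
    rw [← hL] at w1 w2
    have w3 : C3 * L ≤ η * |v| := by
      rw [hK1] at hv
      have : C3 / η * L * η < |v| * η := mul_lt_mul_of_pos_right hv hη
      have e : C3 / η * L * η = C3 * L := by field_simp
      rw [e] at this
      linarith
    have w4 : Real.exp (C3 * L - ϑ * v + η * |v|) ≤ Real.exp (-(ϑ * v) + 2 * η * |v|) :=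
      Real.exp_le_exp.2 (by linarith)
    have w5 : ‖Fa f a u ((x : ℂ) + I * ((T + v : ℝ) : ℂ))‖ ≤
        2 * (g T * Real.exp (-(ϑ * v) + 2 * η * |v|)) := by
      unfold Fa
      have e1 : (x : ℂ) + I * ((T + v : ℝ) : ℂ) + (a : ℂ) =
          ((x + a : ℝ) : ℂ) + I * ((T + v : ℝ) : ℂ) := by
        push_cast
        ring
      have e2 : (x : ℂ) + I * ((T + v : ℝ) : ℂ) - (a : ℂ) =
          ((x - a : ℝ) : ℂ) + I * ((T + v : ℝ) : ℂ) := by
        push_cast
        ring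
      rw [e1, e2]
      refine (norm_add_le _ _).trans ?_
      rw [norm_mul, hu, one_mul]
      have := mul_le_mul_of_nonneg_left w4 hgT.le
      linarith
    refine w5.trans ?_
    have w6 : g T ≤ Q := by
      rw [hQ]
      have e1 : 1 ≤ Real.exp (δ / 4 * L) := Real.one_le_exp (by positivity)
      have e2 : 1 ≤ Real.exp (L * (x + a)) := Real.one_le_exp
        (mul_nonneg (by linarith) (by linarith))
      have e3 : g T ≤ g T * Real.exp (L * (x + a)) := le_mul_of_one_le_right hgT.le e2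
      exact e3.trans (le_mul_of_one_le_left (by positivity) e1)
    have w7 : 2 * (g T * Real.exp (-(ϑ * v) + 2 * η * |v|)) ≤
        2 * (Q * Real.exp (-(ϑ * v) + 2 * η * |v|)) :=
      mul_le_mul_of_nonneg_left (mul_le_mul_of_nonneg_right w6 (Real.exp_pos _).le) (by norm_num)
    refine w7.trans ?_
    rw [← mul_assoc]
    refine mul_le_mul_of_nonneg_right (mul_le_mul_of_nonneg_right ?_ hQ0.le) (Real.exp_pos _).le
    rw [hC]
    linarith

/-- JOB UQ. -/
theorem t_UQ (h1 : S_IF) (h2 : S_KB) (h3 : S_SZ) (h4 : S_LF) : S_UQ := by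
  intro ϑ f l g H a ω δ W ha ha1 hω hδ hδa hδ1 hW
  have hu : ‖uw a ω‖ = 1 := by
    unfold uw
    rw [Complex.norm_exp]
    simp
  obtain ⟨η, hηe⟩ : ∃ η : ℝ, 4 * η = Real.pi / (2 * a) - |ϑ + ω| :=
    ⟨(Real.pi / (2 * a) - |ϑ + ω|) / 4, by ring⟩
  have hη : 0 < η := by linarith
  obtain ⟨K, A, y0, hK, hA, hS⟩ := H.sys
  obtain ⟨C1, hC1, hb⟩ := fa_bd h3 h4 H hu ha ha1 hη hδ hδ1
  obtain ⟨Ck, hk⟩ := h2 a ω (a - δ) ha (by rw [abs_lt]; constructor <;> linarith)
  obtain ⟨C3, hC3, hsz⟩ := (h3 ϑ f l g H η 4 hη (by norm_num)).1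
  have hsz2 := (h3 ϑ f l g H η 4 hη (by norm_num)).2
  obtain ⟨Cr, hr⟩ := H.rate η hη
  have hth := H.th
  have hIF := h1 f a ω (|ϑ + ω| + η) hS.diff ha (by positivity) (by linarith) (by
    intro z
    obtain ⟨C, hC⟩ := hsz2 z
    have hC0 : 0 ≤ C := by
      have := hC 0 0 (by norm_num)
      rw [abs_zero, mul_zero, neg_zero, Real.exp_zero, mul_one] at this
      exact (norm_nonneg _).trans this
    refine ⟨C, fun x v hx => ?_⟩
    have h5 := hC x v (by linarith)
    refine (mul_le_mul_of_nonneg_right h5 (Real.exp_pos _).le).trans ?_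
    rw [mul_assoc, ← Real.exp_add]
    refine mul_le_mul_of_nonneg_left (Real.exp_le_exp.2 ?_) hC0
    have h6 := le_abs_self (ϑ + ω)
    have h7 := neg_abs_le (ϑ + ω)
    rcases abs_cases v with hv | hv
    · rw [hv.1]
      nlinarith [hv.2]
    · rw [hv.1]
      nlinarith [hv.2])
  obtain ⟨J, hJ⟩ : ∃ J : ℝ, J = ∫ v : ℝ, Real.exp (-(2 * η * |v|)) := ⟨_, rfl⟩
  have hJ0 : 0 ≤ J := by
    rw [hJ]
    exact integral_nonneg fun v => (Real.exp_pos _).le
  obtain ⟨D3, hD3⟩ : ∃ D3 : ℝ, D3 = K * Real.log (2 + W) := ⟨_, rfl⟩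
  have hD30 : 0 ≤ D3 := by
    rw [hD3]
    exact mul_nonneg (by linarith) (Real.log_nonneg (by linarith))
  obtain ⟨D2, hD2⟩ : ∃ D2 : ℝ, D2 = (η + ϑ) * W + Cr := ⟨_, rfl⟩
  obtain ⟨E1, hE1⟩ : ∃ E1 : ℝ, E1 = 1 / (4 * a) * (|Ck| * C1 * J) *
    Real.exp (δ / 4 * D3 + D2 + 3 * D3) := ⟨_, rfl⟩
  have hE10 : 0 ≤ E1 := by rw [hE1]; positivity
  obtain ⟨Y, hY⟩ := eventually_atTop.1 (H.lim.eventually_ge_atTop (4 / (3 * δ) * E1))
  obtain ⟨C, hC⟩ : ∃ C : ℝ, C = |Y| + C1 + W + C3 + (W + C1 * (1 + D3)) := ⟨_, rfl⟩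
  have hY0 := abs_nonneg Y
  have hCD : 0 ≤ C1 * (1 + D3) := by positivity
  refine ⟨C, by rw [hC]; linarith, ?_⟩
  intro T σ hT hσ hσ1 hnz w hw1 hw2 hw3
  have hTY : Y ≤ T := by
    have := le_abs_self Y
    rw [hC] at hT
    linarith
  have hTC3 : C3 ≤ T := by rw [hC] at hT; linarith
  have hTC1 : C1 + W ≤ T := by rw [hC] at hT; linarith
  have hLY := hY T hTY
  have hL1 : 1 ≤ l T := (hsz T 0 0 hTC3 (by norm_num)).1
  have hgT := hS.pos T
  obtain ⟨y, hy⟩ : ∃ y : ℝ, y = w.im := ⟨_, rfl⟩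
  rw [← hy] at hw3
  have w3 := abs_le.1 hw3
  have s1 := hS.shift T (y - T)
  have s2 : K * Real.log (2 + |y - T|) ≤ D3 := by
    rw [hD3]
    exact mul_le_mul_of_nonneg_left
      (Real.log_le_log (by positivity) (by linarith)) (by linarith)
  rw [add_sub_cancel] at s1
  have s3 := abs_le.1 (s1.trans s2)
  have hgy := hS.pos y
  have r2 : g y ≤ g T * Real.exp D2 := by
    have r1 := (abs_le.1 (hr T (y - T))).2
    rw [add_sub_cancel] at r1
    have r3 : -W ≤ |y| - |T| := by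
      have := abs_sub_abs_le_abs_sub T y
      rw [abs_sub_comm] at this
      linarith
    have r4 : ϑ * (-W) ≤ ϑ * (|y| - |T|) := mul_le_mul_of_nonneg_left r3 hth
    have r5 : η * |y - T| ≤ η * W := mul_le_mul_of_nonneg_left hw3 hη.le
    have r6 : Real.log (g y) ≤ Real.log (g T) + D2 := by
      rw [hD2]
      linarith
    have r7 := Real.exp_le_exp.2 r6
    rwa [Real.exp_log hgy, Real.exp_add, Real.exp_log hgT] at r7
  obtain ⟨x, hx⟩ : ∃ x : ℝ, x = w.re - a + δ := ⟨_, rfl⟩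
  have hb' := hb y σ (by linarith [w3.1]) hσ hσ1 (by
    intro z z1 z2 z3 z4
    have c1 : C1 * l y ≤ C1 * (l T + D3) := mul_le_mul_of_nonneg_left (by linarith [s3.2])
      (by linarith)
    have c2 : W + C1 * (1 + D3) ≤ C := by rw [hC]; linarith
    have c3 : (W + C1 * (1 + D3)) * l T ≤ C * l T :=
      mul_le_mul_of_nonneg_right c2 (by linarith)
    have c4 : W ≤ W * l T := le_mul_of_one_le_right (by linarith) hL1
    have c5 : D3 ≤ D3 * l T := le_mul_of_one_le_right hD30 hL1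
    have c6 : C1 * D3 ≤ C1 * (D3 * l T) := mul_le_mul_of_nonneg_left c5 (by linarith)
    exact hnz z z1 z2 (by nlinarith [w3.1]) (by nlinarith [w3.2])) x (by linarith) (by linarith)
  obtain ⟨Q, hQ⟩ : ∃ Q : ℝ, Q = Real.exp (δ / 4 * l y) * (g y * Real.exp (l y * (x + a))) :=
    ⟨_, rfl⟩
  have hQ0 : 0 < Q := by rw [hQ]; positivity
  rw [← hQ] at hb'
  obtain ⟨hi1, hi2⟩ := hIF ((x : ℂ) + I * (y : ℂ)) (a - δ) (by rw [abs_lt]; constructor <;> linarith)
  have hwe : (x : ℂ) + I * (y : ℂ) + ((a - δ : ℝ) : ℂ) = w := by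
    rw [hx, hy]
    apply Complex.ext
    · simp
    · simp
  rw [hwe] at hi2
  have hpt : ∀ v : ℝ, ‖KF a ω (a - δ) v * Fa f a (uw a ω) ((x : ℂ) + I * (y : ℂ) + I * v)‖ ≤
      |Ck| * C1 * Q * Real.exp (-(2 * η * |v|)) := by
    intro v
    rw [norm_mul]
    have p1 : ‖KF a ω (a - δ) v‖ ≤ |Ck| * Real.exp (-(ω * v) - Real.pi * |v| / (2 * a)) :=
      (hk v).trans (mul_le_mul_of_nonneg_right (le_abs_self _) (Real.exp_pos _).le)
    have p2 := mul_le_mul p1 (hb' v) (norm_nonneg _) (by positivity)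
    refine p2.trans ?_
    have p3 : Real.exp (-(ω * v) - Real.pi * |v| / (2 * a)) *
        Real.exp (-(ϑ * v) + 2 * η * |v|) ≤ Real.exp (-(2 * η * |v|)) := by
      rw [← Real.exp_add]
      refine Real.exp_le_exp.2 ?_
      have p4 : Real.pi * |v| / (2 * a) = (4 * η + |ϑ + ω|) * |v| := by
        rw [hηe]
        ring
      rw [p4]
      have p5 : -((ϑ + ω) * v) ≤ |ϑ + ω| * |v| := by
        rw [← abs_mul]
        exact neg_le_abs _
      nlinarith
    calc |Ck| * Real.exp (-(ω * v) - Real.pi * |v| / (2 * a)) *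
          (C1 * Q * Real.exp (-(ϑ * v) + 2 * η * |v|)) =
        |Ck| * C1 * Q * (Real.exp (-(ω * v) - Real.pi * |v| / (2 * a)) *
          Real.exp (-(ϑ * v) + 2 * η * |v|)) := by ring
      _ ≤ _ := mul_le_mul_of_nonneg_left p3 (by positivity)
  have hint : ‖∫ v : ℝ, KF a ω (a - δ) v * Fa f a (uw a ω) ((x : ℂ) + I * (y : ℂ) + I * v)‖ ≤
      |Ck| * C1 * Q * J := by
    have q1 := norm_integral_le_of_norm_le
      ((int_ea (κ := 2 * η) (by linarith)).const_mul (|Ck| * C1 * Q))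
      (Eventually.of_forall hpt)
    rw [integral_const_mul, ← hJ] at q1
    exact q1
  have hfw : ‖f w‖ ≤ 1 / (4 * a) * (|Ck| * C1 * Q * J) := by
    rw [hi2, norm_mul, Complex.norm_real, Real.norm_eq_abs, abs_of_pos (by positivity)]
    exact mul_le_mul_of_nonneg_left hint (by positivity)
  have hxa : x + a = w.re + δ := by rw [hx]; ring
  have hQb : Q ≤ Real.exp (δ / 4 * D3 + D2 + 3 * D3) * (Real.exp (5 / 4 * δ * l T) *
      (g T * Real.exp (l T * w.re))) := by
    have q1 : Real.exp (δ / 4 * l y) ≤ Real.exp (δ / 4 * l T + δ / 4 * D3) := by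
      refine Real.exp_le_exp.2 ?_
      have : δ / 4 * l y ≤ δ / 4 * (l T + D3) :=
        mul_le_mul_of_nonneg_left (by linarith [s3.2]) (by linarith)
      linarith
    have q2 : Real.exp (l y * (x + a)) ≤ Real.exp (l T * (w.re + δ) + 3 * D3) := by
      refine Real.exp_le_exp.2 ?_
      rw [hxa]
      have e1 : l y * (w.re + δ) ≤ (l T + D3) * (w.re + δ) :=
        mul_le_mul_of_nonneg_right (by linarith [s3.2]) (by linarith)
      have e2 : D3 * (w.re + δ) ≤ D3 * 3 := mul_le_mul_of_nonneg_left (by linarith) hD30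
      linarith
    have q3 : g y * Real.exp (l y * (x + a)) ≤ g T * Real.exp D2 *
        Real.exp (l T * (w.re + δ) + 3 * D3) :=
      mul_le_mul r2 q2 (Real.exp_pos _).le (by positivity)
    rw [hQ]
    refine (mul_le_mul q1 q3 (by positivity) (Real.exp_pos _).le).trans (le_of_eq ?_)
    have e3 : Real.exp (δ / 4 * l T + δ / 4 * D3) * (Real.exp D2 *
        Real.exp (l T * (w.re + δ) + 3 * D3)) =
        Real.exp (δ / 4 * D3 + D2 + 3 * D3) * (Real.exp (5 / 4 * δ * l T) *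
          Real.exp (l T * w.re)) := by
      rw [← Real.exp_add, ← Real.exp_add, ← Real.exp_add, ← Real.exp_add]
      congr 1
      ring
    calc _ = g T * (Real.exp (δ / 4 * l T + δ / 4 * D3) * (Real.exp D2 *
        Real.exp (l T * (w.re + δ) + 3 * D3))) := by ring
      _ = _ := by
          rw [e3]
          ring
  have hlast : E1 ≤ Real.exp (3 / 4 * δ * l T) := by
    have e1 := Real.add_one_le_exp (3 / 4 * δ * l T)
    have e2 : E1 ≤ 3 / 4 * δ * l T := by
      have := mul_le_mul_of_nonneg_left hLY (by positivity : 0 ≤ 3 / 4 * δ)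
      have e : 3 / 4 * δ * (4 / (3 * δ) * E1) = E1 := by field_simp
      rw [e] at this
      exact this
    linarith
  calc ‖f w‖ ≤ 1 / (4 * a) * (|Ck| * C1 * Q * J) := hfw
    _ = 1 / (4 * a) * (|Ck| * C1 * J) * Q := by ring
    _ ≤ 1 / (4 * a) * (|Ck| * C1 * J) * (Real.exp (δ / 4 * D3 + D2 + 3 * D3) *
        (Real.exp (5 / 4 * δ * l T) * (g T * Real.exp (l T * w.re)))) :=
        mul_le_mul_of_nonneg_left hQb (by positivity)
    _ = E1 * (Real.exp (5 / 4 * δ * l T) * (g T * Real.exp (l T * w.re))) := by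
        rw [hE1]
        ring
    _ ≤ Real.exp (3 / 4 * δ * l T) * (Real.exp (5 / 4 * δ * l T) *
        (g T * Real.exp (l T * w.re))) := mul_le_mul_of_nonneg_right hlast (by positivity)
    _ = Real.exp (2 * δ * l T) * Nm l g 0 T w.re := by
        unfold Nm
        rw [pow_zero, mul_one, ← mul_assoc, ← Real.exp_add]
        congr 2
        ring

end Pool.Agent.Q176.DT
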